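import Pool.Agent.R439.FD.Defs

set_option autoImplicit false

namespace Pool.Agent.R439.FD

open Finset Pool.Agent.R439.PL
open Pool.Agent.R488.Cub (H)

/-- `∑_{i<s} (-1)^i C(N,i)/(s-i)` satisfies Pascal's rule -/
lemma alt_pascal (N s : ℕ) :
    ∑ i ∈ range (s + 1), (-1) ^ i * ((N + 1).choose i : ℚ) / (((s + 1 : ℕ) : ℚ) - i) =
      ∑ i ∈ range (s + 1), (-1) ^ i * (N.choose i : ℚ) / (((s + 1 : ℕ) : ℚ) - i) -
      ∑ i ∈ range s, (-1) ^ i * (N.choose i : ℚ) / ((s : ℚ) - i) := by
  rw [sum_range_succ' (fun i => (-1) ^ i * ((N + 1).choose i : ℚ) / (((s + 1 : ℕ) : ℚ) - i)),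
    sum_range_succ' (fun i => (-1) ^ i * (N.choose i : ℚ) / (((s + 1 : ℕ) : ℚ) - i))]
  have h : ∀ i ∈ range s, (-1) ^ (i + 1) * ((N + 1).choose (i + 1) : ℚ) /
      (((s + 1 : ℕ) : ℚ) - ((i + 1 : ℕ) : ℚ)) =
      (-1) ^ (i + 1) * (N.choose (i + 1) : ℚ) / (((s + 1 : ℕ) : ℚ) - ((i + 1 : ℕ) : ℚ)) -
      (-1) ^ i * (N.choose i : ℚ) / ((s : ℚ) - i) := by
    intro i hi
    rw [Nat.choose_succ_succ]
    have e : (((s + 1 : ℕ) : ℚ) - ((i + 1 : ℕ) : ℚ)) = (s : ℚ) - i := by push_cast; ring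
    rw [e, ← sub_div]
    congr 1
    push_cast
    ring
  rw [sum_congr rfl h, sum_sub_distrib]
  simp only [Nat.choose_zero_right]
  ring

lemma alt_top (N : ℕ) :
    ∑ i ∈ range (N + 1), (-1) ^ i * (N.choose i : ℚ) / (((N + 1 : ℕ) : ℚ) - i) =
      (-1) ^ N / ((N : ℚ) + 1) := by
  have hN : (N : ℚ) + 1 ≠ 0 := by positivity
  have h : ∀ i ∈ range (N + 1), (-1) ^ i * (N.choose i : ℚ) / (((N + 1 : ℕ) : ℚ) - i) =
      ((-1) ^ i * ((N + 1).choose i : ℚ)) / ((N : ℚ) + 1) := by
    intro i hi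
    have hi' : i ≤ N := by have := mem_range.mp hi; omega
    have h2 := Nat.choose_mul_succ_eq N i
    have h3 : ((N.choose i : ℚ)) * ((N : ℚ) + 1) = ((N + 1).choose i : ℚ) * ((N : ℚ) + 1 - i) := by
      have : ((N.choose i * (N + 1) : ℕ) : ℚ) = (((N + 1).choose i * (N + 1 - i) : ℕ) : ℚ) := by
        exact_mod_cast h2
      rw [Nat.cast_mul, Nat.cast_mul, Nat.cast_sub (by omega)] at this
      push_cast at this
      exact this
    have hne : (((N + 1 : ℕ) : ℚ) - i) ≠ 0 := by
      have : (i : ℚ) ≤ N := by exact_mod_cast hi'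
      push_cast
      linarith
    rw [div_eq_div_iff hne hN]
    push_cast
    linear_combination (-1 : ℚ) ^ i * h3
  rw [sum_congr rfl h, ← sum_div]
  congr 1
  have h0 : ∑ i ∈ range (N + 1 + 1), (-1 : ℚ) ^ i * ((N + 1).choose i : ℚ) = 0 := by
    have := Int.alternating_sum_range_choose_of_ne (n := N + 1) (by omega)
    exact_mod_cast this
  rw [sum_range_succ, Nat.choose_self] at h0
  rw [pow_succ] at h0
  push_cast at h0
  linarith

lemma alt_H_succ (n : ℕ) : H (n + 1) = H n + 1 / ((n : ℚ) + 1) := by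
  unfold H
  rw [sum_range_succ]

theorem alt : StmtAlt := by
  intro N
  induction N with
  | zero =>
    intro s hs
    obtain rfl : s = 0 := by omega
    simp
  | succ N ih =>
    intro s hs
    cases s with
    | zero => simp
    | succ s =>
      rw [alt_pascal, ih s (by omega)]
      rcases Nat.lt_or_ge s N with h | h
      · rw [ih (s + 1) (by omega)]
        obtain ⟨d, rfl⟩ : ∃ d, N = s + 1 + d := ⟨N - (s + 1), by omega⟩
        have e1 : s + 1 + d - (s + 1) = d := by omega
        have e2 : s + 1 + d - s = d + 1 := by omega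
        have e3 : s + 1 + d + 1 - (s + 1) = d + 1 := by omega
        rw [e1, e2, e3, alt_H_succ d, alt_H_succ (s + 1 + d)]
        have hp := Nat.choose_succ_succ (s + 1 + d) s
        have hp' : ((s + 1 + d + 1).choose (s + 1) : ℚ) =
            ((s + 1 + d).choose s : ℚ) + ((s + 1 + d).choose (s + 1) : ℚ) := by
          exact_mod_cast hp
        have hq := Nat.choose_succ_right_eq (s + 1 + d) s
        rw [e2] at hq
        have hq' : ((s + 1 + d).choose (s + 1) : ℚ) * ((s : ℚ) + 1) =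
            ((s + 1 + d).choose s : ℚ) * ((d : ℚ) + 1) := by exact_mod_cast hq
        have hd : (d : ℚ) + 1 ≠ 0 := by positivity
        have hs1 : ((s + 1 + d : ℕ) : ℚ) + 1 ≠ 0 := by positivity
        have hkey : ((s + 1 + d).choose (s + 1) : ℚ) * (1 / ((d : ℚ) + 1)) =
            ((s + 1 + d + 1).choose (s + 1) : ℚ) * (1 / (((s + 1 + d : ℕ) : ℚ) + 1)) := by
          rw [mul_one_div, mul_one_div, div_eq_div_iff hd hs1, hp']
          push_cast
          linear_combination hq'
        rw [pow_succ, pow_succ]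
        linear_combination ((-1 : ℚ) ^ s) * hkey +
          ((-1 : ℚ) ^ s * (H d + 1 / ((d : ℚ) + 1) - H (s + 1 + d))) * hp'
      · obtain rfl : s = N := by omega
        rw [alt_top]
        have e1 : s - s = 0 := by omega
        have e2 : s + 1 - (s + 1) = 0 := by omega
        rw [e1, e2, alt_H_succ s, Nat.choose_self, Nat.choose_self]
        have h0 : H 0 = 0 := by unfold H; simp
        rw [h0, pow_succ, pow_succ]
        push_cast
        ring

end Pool.Agent.R439.FD
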