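import Mathlib
import Pool.Agent.R488.Cub.Defs

set_option autoImplicit false

/-!
Statements for MP_fdcced_nt (`∑ C(-1/4,k)^2 (-8)^k` modulo `p^2`, `p = 4n+1`).
-/

namespace Pool.Agent.R439.FD

open Finset Pool.Agent.R439.PL
open Pool.Agent.R488.Cub (H)

/-- the quartic Jacobi sum modulo `p^2` -/
def JQ (p n : ℕ) : ℚ := ∑ x ∈ range p, ((x : ℚ) * (1 - x)) ^ (3 * n * p)

/-- FD-ALT (exact): coefficient of `x^s` in `-log(1-x) (1-x)^N` -/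
def StmtAlt : Prop := ∀ N s : ℕ, s ≤ N →
  ∑ i ∈ range s, (-1) ^ i * (N.choose i : ℚ) / ((s : ℚ) - i) =
    (-1) ^ (s + 1) * (N.choose s : ℚ) * (H N - H (N - s))

/-- `∑_{i<s} (-1)^i C(N,i)/(s-i)` -/
def ZQ (N s : ℕ) : ℚ := ∑ i ∈ range s, (-1) ^ i * (N.choose i : ℚ) / ((s : ℚ) - i)

/-- FD-SUM: `p = 4n+1` -/
def StmtSum : Prop := ∀ (p n : ℕ) [Fact p.Prime], p = 4 * n + 1 →
  EQ p 2 (JQ p n) ((-1) ^ n * (p - 1) * ((3 * n).choose n : ℚ) +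
    3 * n * p * (ZQ (3 * n - 1) n + (-1) ^ n * ZQ (3 * n - 1) (2 * n)))

/-- FD-JAC: `p = 4n+1` -/
def StmtJac : Prop := ∀ (p n : ℕ) [Fact p.Prime], p = 4 * n + 1 →
  ∃ a b : ℤ, (p : ℤ) = a ^ 2 + b ^ 2 ∧ a % 4 = 3 ∧
    (¬ I p 1 (JQ p n) → EQ p 2 (JQ p n) (2 * a - p / (2 * a)))

/-- FD-UNIQ -/
def StmtUniq : Prop := ∀ (p : ℕ), p.Prime → ∀ x y a b : ℤ, (p : ℤ) = x ^ 2 + y ^ 2 →
  (p : ℤ) = a ^ 2 + b ^ 2 → x % 2 = 1 → a % 2 = 1 → x = a ∨ x = -a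

end Pool.Agent.R439.FD
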