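import Mathlib
import Pool.Agent.R439.FD.Defs
import Pool.Agent.R439.S4A
import Pool.Agent.R439.W3A

set_option autoImplicit false

/-!
Exact identities for MP_fdcced_nt.
-/

namespace Pool.Agent.R439.FD

open Finset Pool.Agent.R439.W3 Pool.Agent.R439.S4
open Pool.Agent.R488.Cub (gb)

/-! ### Delannoy numbers -/

def dt (m k : ℕ) : ℚ := (m.choose k : ℚ) * ((m + k).choose k : ℚ)

def dw (m k : ℕ) : ℚ := ((m + 2).choose k : ℚ) * ((m + k).choose k : ℚ)

/-- central Delannoy numbers -/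
def DD (m : ℕ) : ℚ := ∑ k ∈ range (m + 1), dt m k

theorem dt_lo (m k : ℕ) : dt m k * (((m : ℚ) + 1) * ((m : ℚ) + 2)) =
    dw m k * (((m : ℚ) + 2 - k) * ((m : ℚ) + 1 - k)) := by
  have h1 := ch_up m k
  have h2 := ch_up (m + 1) k
  rw [show m + 1 + 1 = m + 2 by ring] at h2
  push_cast at h1 h2
  rw [dt, dw]
  linear_combination ((m + k).choose k : ℚ) * (((m : ℚ) + 2) * h1 + ((m : ℚ) + 1 - k) * h2)

theorem dt_mid (m k : ℕ) : dt (m + 1) k * (((m : ℚ) + 1) * ((m : ℚ) + 2)) =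
    dw m k * (((m : ℚ) + 2 - k) * ((m : ℚ) + k + 1)) := by
  have h1 := ch_up (m + k) k
  have h2 := ch_up (m + 1) k
  rw [show m + 1 + 1 = m + 2 by ring] at h2
  push_cast at h1 h2
  rw [dt, dw, show m + 1 + k = m + k + 1 by ring]
  linear_combination ((m : ℚ) + 1) * ((m + k + 1).choose k : ℚ) * h2 -
    ((m + 2).choose k : ℚ) * ((m : ℚ) + 2 - k) * h1

theorem dt_hi (m k : ℕ) : dt (m + 2) k * (((m : ℚ) + 1) * ((m : ℚ) + 2)) =
    dw m k * (((m : ℚ) + k + 1) * ((m : ℚ) + k + 2)) := by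
  have h1 := ch_up (m + k) k
  have h2 := ch_up (m + k + 1) k
  rw [show m + k + 1 + 1 = m + k + 2 by ring] at h2
  push_cast at h1 h2
  rw [dt, dw, show m + 2 + k = m + k + 2 by ring]
  linear_combination (-((m + 2).choose k : ℚ)) * (((m : ℚ) + 1) * h2 + ((m : ℚ) + k + 2) * h1)

theorem dw_succ (m k : ℕ) : dw m (k + 1) * ((k : ℚ) + 1) ^ 2 =
    dw m k * (((m : ℚ) + 2 - k) * ((m : ℚ) + k + 1)) := by
  have h1 := ch_right (m + 2) k
  have h2 := ch_diag (m + k) k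
  push_cast at h1 h2
  rw [dw, dw, ← add_assoc]
  linear_combination ((m + k + 1).choose (k + 1) : ℚ) * ((k : ℚ) + 1) * h1 +
    ((m + 2).choose k : ℚ) * ((m : ℚ) + 2 - k) * h2

theorem DD_rec (m : ℕ) : ((m : ℚ) + 2) * DD (m + 2) - 3 * (2 * m + 3) * DD (m + 1) +
    ((m : ℚ) + 1) * DD m = 0 := by
  have c1 : (m : ℚ) + 1 ≠ 0 := by positivity
  have c2 : (m : ℚ) + 2 ≠ 0 := by positivity
  have h1 : ∀ k : ℕ, ((m : ℚ) + 2) * dt (m + 2) k - 3 * (2 * m + 3) * dt (m + 1) k +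
      ((m : ℚ) + 1) * dt m k = -2 * (2 * (m : ℚ) + 3) * ((k + 1 : ℕ) : ℚ) ^ 2 * dw m (k + 1) /
        (((m : ℚ) + 1) * ((m : ℚ) + 2)) - -2 * (2 * (m : ℚ) + 3) * (k : ℚ) ^ 2 * dw m k /
        (((m : ℚ) + 1) * ((m : ℚ) + 2)) := by
    intro k
    have h2 := dt_lo m k
    have h3 := dt_mid m k
    have h4 := dt_hi m k
    have h5 := dw_succ m k
    rw [← sub_div, eq_div_iff (mul_ne_zero c1 c2)]
    push_cast
    linear_combination ((m : ℚ) + 2) * h4 - 3 * (2 * m + 3) * h3 + ((m : ℚ) + 1) * h2 +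
      2 * (2 * (m : ℚ) + 3) * h5
  have h2 : ∑ k ∈ range (m + 3), (((m : ℚ) + 2) * dt (m + 2) k - 3 * (2 * m + 3) * dt (m + 1) k +
      ((m : ℚ) + 1) * dt m k) = 0 := by
    rw [sum_congr rfl fun k _ => h1 k, sum_range_sub (fun k => -2 * (2 * (m : ℚ) + 3) * (k : ℚ) ^ 2 *
      dw m k / (((m : ℚ) + 1) * ((m : ℚ) + 2)))]
    rw [dw, Nat.choose_eq_zero_of_lt (by omega : m + 2 < m + 3)]
    simp
  rw [sum_add_distrib, sum_sub_distrib, ← mul_sum, ← mul_sum, ← mul_sum] at h2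
  have h3 : ∑ k ∈ range (m + 3), dt m k = DD m := by
    rw [DD, sum_range_succ, sum_range_succ]
    have a1 : dt m (m + 1) = 0 := by rw [dt, Nat.choose_eq_zero_of_lt (by omega : m < m + 1)]; simp
    have a2 : dt m (m + 2) = 0 := by rw [dt, Nat.choose_eq_zero_of_lt (by omega : m < m + 2)]; simp
    rw [a1, a2]; ring
  have h4 : ∑ k ∈ range (m + 3), dt (m + 1) k = DD (m + 1) := by
    rw [DD, sum_range_succ]
    have a1 : dt (m + 1) (m + 2) = 0 := by
      rw [dt, Nat.choose_eq_zero_of_lt (by omega : m + 1 < m + 2)]; simp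
    rw [a1]; ring
  rw [h3, h4] at h2
  exact h2

def AAn (n : ℚ) : ℚ := (2 * n + 4) * (2 * n + 3) * (4 * n + 3)
def BBn (n : ℚ) : ℚ := (2 * n + 3) ^ 2 * (4 * n + 3) - 9 * (4 * n + 5) * (4 * n + 7) * (4 * n + 3) +
  (2 * n + 2) ^ 2 * (4 * n + 7)
def CCn (n : ℚ) : ℚ := (2 * n + 1) * (2 * n + 2) * (4 * n + 7)

theorem DD_two (n : ℕ) : AAn n * DD (2 * (n + 2)) + BBn n * DD (2 * (n + 1)) + CCn n * DD (2 * n) = 0 := by
  have h0 := DD_rec (2 * n)
  have h1 := DD_rec (2 * n + 1)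
  have h2 := DD_rec (2 * n + 2)
  rw [show 2 * (n + 2) = 2 * n + 2 + 2 by ring, show 2 * (n + 1) = 2 * n + 2 by ring, AAn, BBn, CCn]
  rw [show 2 * n + 1 + 2 = 2 * n + 2 + 1 by ring, show 2 * n + 1 + 1 = 2 * n + 2 by ring] at h1
  push_cast at h0 h1 h2
  linear_combination (2 * (n : ℚ) + 3) * (4 * n + 3) * h2 + 3 * (4 * (n : ℚ) + 7) * (4 * n + 3) * h1 +
    (2 * (n : ℚ) + 2) * (4 * n + 7) * h0

/-! ### The sum with `(-8)^k` -/

def gq (n k : ℕ) : ℚ := gb (-(n : ℚ) - 1 / 2) k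

def qt (n k : ℕ) : ℚ := (n.choose k : ℚ) * gq n k * (-8) ^ k

def qv (n k : ℕ) : ℚ := ((n + 2).choose k : ℚ) * gq n k * (-8) ^ k

def QQ (n : ℕ) : ℚ := ∑ k ∈ range (n + 1), qt n k

theorem gb_succ (a : ℚ) (k : ℕ) : gb a (k + 1) * ((k : ℚ) + 1) = gb a k * (a - k) := by
  have h1 : (k.factorial : ℚ) ≠ 0 := by positivity
  have h2 : (k : ℚ) + 1 ≠ 0 := by positivity
  rw [gb, gb, prod_range_succ, Nat.factorial_succ]
  push_cast
  field_simp

theorem gb_zero (a : ℚ) : gb a 0 = 1 := by simp [gb]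

theorem gq_up (n k : ℕ) : gq (n + 1) k * ((n : ℚ) + 1 / 2) = gq n k * ((n : ℚ) + 1 / 2 + k) := by
  induction k with
  | zero => rw [gq, gq, gb_zero, gb_zero]; push_cast; ring
  | succ k ih =>
    have h1 := gb_succ (-((n + 1 : ℕ) : ℚ) - 1 / 2) k
    have h2 := gb_succ (-(n : ℚ) - 1 / 2) k
    have h3 : (k : ℚ) + 1 ≠ 0 := by positivity
    rw [gq, gq] at ih ⊢
    apply mul_right_cancel₀ h3
    push_cast at h1 ih ⊢
    linear_combination ((n : ℚ) + 1 / 2) * h1 - ((n : ℚ) + 1 / 2 + (k + 1)) * h2 +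
      (-((n : ℚ) + 1) - 1 / 2 - k) * ih

theorem QQ_rec (n : ℕ) : AAn n * QQ (n + 2) + BBn n * QQ (n + 1) + CCn n * QQ n = 0 := by
  have c1 : (n : ℚ) + 1 ≠ 0 := by positivity
  have c2 : (n : ℚ) + 2 ≠ 0 := by positivity
  have c3 : (n : ℚ) + 1 / 2 ≠ 0 := by positivity
  have c4 : (n : ℚ) + 1 + 1 / 2 ≠ 0 := by positivity
  have h1 : ∀ k : ℕ, AAn n * qt (n + 2) k + BBn n * qt (n + 1) k + CCn n * qt n k =
      -((4 * (n : ℚ) + 3) * (4 * n + 5) * (4 * n + 7)) * ((k + 1 : ℕ) : ℚ) ^ 2 * qv n (k + 1) /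
        (((n : ℚ) + 2) * ((n : ℚ) + 1 / 2)) - -((4 * (n : ℚ) + 3) * (4 * n + 5) * (4 * n + 7)) *
        (k : ℚ) ^ 2 * qv n k / (((n : ℚ) + 2) * ((n : ℚ) + 1 / 2)) := by
    intro k
    have e1 := ch_up n k
    have e2 := ch_up (n + 1) k
    have e3 := ch_right (n + 2) k
    have e4 := gq_up n k
    have e5 := gq_up (n + 1) k
    have e6 := gb_succ (-(n : ℚ) - 1 / 2) k
    rw [show n + 1 + 1 = n + 2 by ring] at e2 e5
    have e6' : gq n (k + 1) * ((k : ℚ) + 1) = gq n k * (-(n : ℚ) - 1 / 2 - k) := e6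
    push_cast at e1 e2 e3 e5
    have a1 : (n.choose k : ℚ) = ((n + 2).choose k : ℚ) * ((n : ℚ) + 2 - k) * ((n : ℚ) + 1 - k) /
        (((n : ℚ) + 1) * (n + 2)) := by
      rw [eq_div_iff (mul_ne_zero c1 c2)]
      linear_combination ((n : ℚ) + 2) * e1 + ((n : ℚ) + 1 - k) * e2
    have a2 : ((n + 1).choose k : ℚ) = ((n + 2).choose k : ℚ) * ((n : ℚ) + 2 - k) / (n + 2) := by
      rw [eq_div_iff c2]
      linear_combination e2
    have a4 : gq (n + 1) k = gq n k * ((n : ℚ) + 1 / 2 + k) / ((n : ℚ) + 1 / 2) := by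
      rw [eq_div_iff c3, e4]
    have a5 : gq (n + 2) k = gq n k * ((n : ℚ) + 1 / 2 + k) * ((n : ℚ) + 1 + 1 / 2 + k) /
        (((n : ℚ) + 1 / 2) * ((n : ℚ) + 1 + 1 / 2)) := by
      rw [eq_div_iff (mul_ne_zero c3 c4)]
      linear_combination ((n : ℚ) + 1 / 2) * e5 + ((n : ℚ) + 1 + 1 / 2 + k) * e4
    have a6 : ((k : ℚ) + 1) ^ 2 * qv n (k + 1) = 8 * (((n : ℚ) + 2 - k) * ((n : ℚ) + 1 / 2 + k)) *
        qv n k := by
      rw [qv, qv, pow_succ (-8 : ℚ) k]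
      linear_combination (-8 : ℚ) * (-8) ^ k * ((k : ℚ) + 1) * gq n (k + 1) * e3 +
        (-8 : ℚ) * (-8) ^ k * ((n + 2).choose k : ℚ) * ((n : ℚ) + 2 - k) * e6'
    have a7 : ((k + 1 : ℕ) : ℚ) ^ 2 * qv n (k + 1) = 8 * (((n : ℚ) + 2 - k) * ((n : ℚ) + 1 / 2 + k)) *
        qv n k := by push_cast; exact a6
    rw [mul_assoc _ (((k + 1 : ℕ) : ℚ) ^ 2), a7, qt, qt, qt, qv, a1, a2, a4, a5, AAn, BBn, CCn]
    generalize ((n + 2).choose k : ℚ) = X
    generalize gq n k = Y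
    generalize (-8 : ℚ) ^ k = Z
    have c5 : 2 * (n : ℚ) + 1 ≠ 0 := by positivity
    have c6 : 2 * (n : ℚ) + 3 ≠ 0 := by positivity
    have b1 : (n : ℚ) + 1 / 2 = (2 * n + 1) / 2 := by ring
    have b2 : (n : ℚ) + 1 + 1 / 2 = (2 * n + 3) / 2 := by ring
    rw [b2, b1]
    field_simp
    ring
  have h2 : ∑ k ∈ range (n + 3), (AAn n * qt (n + 2) k + BBn n * qt (n + 1) k + CCn n * qt n k) = 0 := by
    rw [sum_congr rfl fun k _ => h1 k, sum_range_sub (fun k =>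
      -((4 * (n : ℚ) + 3) * (4 * n + 5) * (4 * n + 7)) * (k : ℚ) ^ 2 * qv n k /
        (((n : ℚ) + 2) * ((n : ℚ) + 1 / 2)))]
    rw [qv, Nat.choose_eq_zero_of_lt (by omega : n + 2 < n + 3)]
    simp
  rw [sum_add_distrib, sum_add_distrib, ← mul_sum, ← mul_sum, ← mul_sum] at h2
  have h3 : ∑ k ∈ range (n + 3), qt n k = QQ n := by
    rw [QQ, sum_range_succ, sum_range_succ]
    have a1 : qt n (n + 1) = 0 := by rw [qt, Nat.choose_eq_zero_of_lt (by omega : n < n + 1)]; simp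
    have a2 : qt n (n + 2) = 0 := by rw [qt, Nat.choose_eq_zero_of_lt (by omega : n < n + 2)]; simp
    rw [a1, a2]; ring
  have h4 : ∑ k ∈ range (n + 3), qt (n + 1) k = QQ (n + 1) := by
    rw [QQ, sum_range_succ]
    have a1 : qt (n + 1) (n + 2) = 0 := by
      rw [qt, Nat.choose_eq_zero_of_lt (by omega : n + 1 < n + 2)]; simp
    rw [a1]; ring
  rw [h3, h4] at h2
  exact h2

theorem QQ_DD (n : ℕ) : QQ n = DD (2 * n) := by
  have key : ∀ n : ℕ, QQ n = DD (2 * n) ∧ QQ (n + 1) = DD (2 * (n + 1)) := by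
    intro n
    induction n with
    | zero =>
      constructor
      · simp [QQ, DD, qt, dt, gq, gb]
      · simp [QQ, DD, qt, dt, gq, gb, sum_range_succ, prod_range_succ, Nat.choose]
        norm_num
    | succ n ih =>
      refine ⟨ih.2, ?_⟩
      have h1 := QQ_rec n
      have h2 := DD_two n
      rw [ih.1, ih.2] at h1
      have h3 : AAn n ≠ 0 := by rw [AAn]; positivity
      apply mul_left_cancel₀ h3
      rw [show n + 1 + 1 = n + 2 by ring]
      linear_combination h1 - h2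
  exact (key n).1

/-! ### The convolution of `ch` with signs -/

def hh (m : ℕ) : ℚ := ∑ i ∈ range (m + 1), (-1) ^ i * (ch i * ch (m - i))
def hA (m : ℕ) : ℚ := ∑ i ∈ range (m + 1), (-1) ^ i * ((i : ℚ) * (ch i * ch (m - i)))
def hB (m : ℕ) : ℚ := ∑ i ∈ range (m + 1), (-1) ^ i * (((m : ℚ) - i) * (ch i * ch (m - i)))

theorem ch_s (k : ℕ) : 2 * ((k : ℚ) + 1) * ch (k + 1) = (2 * k + 1) * ch k := by
  have h := ch_succ k
  have h2 : 2 * (k : ℚ) + 2 ≠ 0 := by positivity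
  rw [mul_div_assoc', eq_div_iff h2] at h
  linear_combination h

theorem hA_succ (m : ℕ) : 2 * hA (m + 1) = -2 * hA m - hh m := by
  rw [hA, sum_range_succ', hA, hh, mul_sum, ← sum_sub_distrib]
  simp only [Nat.cast_zero, zero_mul, mul_zero, add_zero]
  rw [mul_sum]
  refine sum_congr rfl fun i _ => ?_
  have h := ch_s i
  rw [show m + 1 - (i + 1) = m - i by omega, pow_succ]
  push_cast
  linear_combination (-(-1 : ℚ) ^ i) * ch (m - i) * h

theorem hB_succ (m : ℕ) : 2 * hB (m + 1) = 2 * hB m + hh m := by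
  rw [hB, sum_range_succ, hB, hh, mul_sum, ← sum_add_distrib]
  simp only [sub_self, zero_mul, mul_zero, add_zero]
  rw [mul_sum]
  refine sum_congr rfl fun i hi => ?_
  have hi' := mem_range.1 hi
  have h := ch_s (m - i)
  rw [Nat.cast_sub (by omega : i ≤ m)] at h
  rw [show m + 1 - i = m - i + 1 by omega]
  push_cast
  linear_combination ((-1 : ℚ) ^ i) * ch i * h

theorem hAB (m : ℕ) : hA m + hB m = m * hh m := by
  rw [hA, hB, hh, mul_sum, ← sum_add_distrib]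
  exact sum_congr rfl fun i _ => by ring

theorem hh_even (l : ℕ) : hh (2 * l) = ch l := by
  have key : ∀ l : ℕ, hh (2 * l) = ch l ∧ hA (2 * l) = l * hh (2 * l) := by
    intro l
    induction l with
    | zero => simp [hh, hA, ch_zero]
    | succ l ih =>
      have h1 := hA_succ (2 * l)
      have h2 := hB_succ (2 * l)
      have h3 := hAB (2 * l)
      have h4 := hAB (2 * l + 1)
      have h5 := hA_succ (2 * l + 1)
      have h6 := hB_succ (2 * l + 1)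
      have h7 := hAB (2 * l + 1 + 1)
      rw [show 2 * (l + 1) = 2 * l + 1 + 1 by ring]
      push_cast at h3 h4 h7 ⊢
      have h8 : hh (2 * l + 1) = 0 := by
        have : (2 * (l : ℚ) + 1) * hh (2 * l + 1) = 0 := by
          linear_combination (-1) * h4 + (1 / 2) * h1 + (1 / 2) * h2 + h3 - 2 * ih.2
        have c : (2 * (l : ℚ) + 1) ≠ 0 := by positivity
        exact (mul_eq_zero.1 this).resolve_left c
      have h9 := ch_s l
      have h10 : (2 * (l : ℚ) + 2) * hh (2 * l + 1 + 1) = (2 * l + 1) * hh (2 * l) := by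
        have := ih.2
        linear_combination (-1) * h7 + (1 / 2) * h5 + (1 / 2) * h6 - (1 / 2) * h1 + (1 / 2) * h2 + h3
      constructor
      · have c : (2 * (l : ℚ) + 2) ≠ 0 := by positivity
        apply mul_left_cancel₀ c
        rw [h10, ih.1]
        linear_combination (-1) * h9
      · have := ih.2
        linear_combination (1 / 2) * h5 - (1 / 2) * h1 + this - (1 / 2) * h8 - (1 / 2) * h10
  exact (key l).1

end Pool.Agent.R439.FD
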