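import Mathlib
import Pool.Agent.R439.FD.FA
import Pool.Agent.R439.S4D
import Pool.Agent.R488.Cub.Lin

set_option autoImplicit false

/-!
Congruences modulo `p^2` for MP_fdcced_nt.
-/

namespace Pool.Agent.R439.PL.FD

open Finset Pool.Agent.R439.W3 Pool.Agent.R439.S4 Pool.Agent.R439.PL Pool.Agent.R439.PL.S4 Pool.Agent.R439.FD
open Pool.Agent.R488.Cub (gb H prod1 H_sub H_mem prodH prod_choose)

theorem gb_choose (n k : ℕ) : gb (n : ℚ) k = (n.choose k : ℚ) := by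
  induction k with
  | zero => simp [gb]
  | succ k ih =>
    have h1 := gb_succ (n : ℚ) k
    have h2 := ch_right n k
    have h3 : (k : ℚ) + 1 ≠ 0 := by positivity
    apply mul_right_cancel₀ h3
    rw [h1, h2, ih]

variable {p n : ℕ} [hp : Fact p.Prime]

/-- the sum of the problem -/
def SQ (p : ℕ) : ℚ := ∑ k ∈ range p, gb (-1 / 4) k ^ 2 * (-8) ^ k

theorem unit2 (hpn : p = 4 * n + 1) : U p (2 : ℚ) := by
  have hn : 0 < n := by
    rcases Nat.eq_zero_or_pos n with h | h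
    · exfalso; rw [h] at hpn; exact hp.out.one_lt.ne' (by simpa using hpn)
    · exact h
  have := U_nat (p := p) (k := 2) (by norm_num) (by omega)
  exact_mod_cast this

theorem hn0 (hpn : p = 4 * n + 1) : 0 < n := by
  rcases Nat.eq_zero_or_pos n with h | h
  · exfalso; rw [h] at hpn; exact hp.out.one_lt.ne' (by simpa using hpn)
  · exact h

/-- step 1 -/
theorem SQ_QQ (hpn : p = 4 * n + 1) : EQ p 2 (SQ p) (QQ n) := by
  have hn := hn0 hpn
  have e1 : QQ n = ∑ k ∈ range p, gb (n : ℚ) k * gb (-(n : ℚ) - 1 / 2) k * (-8) ^ k := by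
    rw [QQ]
    have h9 : p = n + 1 + 3 * n := by omega
    conv_rhs => rw [h9, sum_range_add]
    have h0 : ∑ x ∈ range (3 * n), gb (n : ℚ) (n + 1 + x) * gb (-(n : ℚ) - 1 / 2) (n + 1 + x) *
        (-8) ^ (n + 1 + x) = 0 := by
      refine sum_eq_zero fun x _ => ?_
      rw [gb_choose, Nat.choose_eq_zero_of_lt (by omega : n < n + 1 + x)]
      simp
    rw [h0, add_zero]
    refine sum_congr rfl fun k _ => ?_
    rw [qt, gq, gb_choose]
  rw [e1, SQ]
  refine EQ.sum fun k hk => ?_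
  have hk' := mem_range.1 hk
  have u2 := unit2 hpn
  have u4 : U p (4 : ℚ) := by
    have := u2.mul u2
    norm_num at this
    exact this
  have uk := U_fac (p := p) hk'
  have h1 : EQ p 2 (∏ i ∈ range k, ((-1 / 4 - (i : ℚ)) ^ 2)) (∏ i ∈ range k, (((n : ℚ) - i) *
      (-(n : ℚ) - 1 / 2 - i))) := by
    refine EQ.prod fun i _ => ?_
    have m1 : (-1 / 4 - (i : ℚ)) ∈ Zp p := by
      refine sub_mem ?_ (nat_mem i)
      rw [div_eq_mul_inv]
      exact mul_mem (neg_mem (one_mem _)) u4.2.2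
    have m2 : ((n : ℚ) - i) ∈ Zp p := sub_mem (nat_mem n) (nat_mem i)
    have m3 : (-(n : ℚ) - 1 / 2 - i) ∈ Zp p := by
      refine sub_mem (sub_mem (neg_mem (nat_mem n)) ?_) (nat_mem i)
      rw [one_div]; exact u2.2.2
    refine ⟨pow_mem m1 2, mul_mem m2 m3, (4⁻¹ : ℚ) ^ 2, pow_mem u4.2.2 2, ?_⟩
    have h2 : (p : ℚ) = 4 * n + 1 := by exact_mod_cast hpn
    rw [h2]
    ring
  have h2 := (h1.mul (EQ.refl (k := 2) (uk.inv.pow 2).2.1)).mul
    (EQ.refl (k := 2) (pow_mem (neg_mem (nat_mem (p := p) 8)) k))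
  have e2 : (∏ i ∈ range k, ((-1 / 4 - (i : ℚ)) ^ 2)) * ((k.factorial : ℚ)⁻¹) ^ 2 * (-((8 : ℕ) : ℚ)) ^ k =
      gb (-1 / 4) k ^ 2 * (-8) ^ k := by
    rw [gb, prod_pow]
    push_cast
    ring
  have e3 : (∏ i ∈ range k, (((n : ℚ) - i) * (-(n : ℚ) - 1 / 2 - i))) * ((k.factorial : ℚ)⁻¹) ^ 2 *
      (-((8 : ℕ) : ℚ)) ^ k = gb (n : ℚ) k * gb (-(n : ℚ) - 1 / 2) k * (-8) ^ k := by
    rw [gb, gb, prod_mul_distrib]
    push_cast
    ring
  rw [e2, e3] at h2
  exact h2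

/-- the alternating sum of squares -/
def TT (m : ℕ) : ℚ := ∑ k ∈ range (m + 1), (-1) ^ k * ch k ^ 2

theorem dt_eq (m k : ℕ) : dt m k = (-1) ^ k * ch k ^ 2 *
    ∏ t ∈ range k, (1 - ((2 * (m : ℚ) + 1) / (2 * (t : ℚ) + 1)) ^ 2) := by
  induction k with
  | zero => simp [dt, ch_zero]
  | succ k ih =>
    have h1 := ch_right m k
    have h2 := ch_diag (m + k) k
    have h5 : dt m (k + 1) * (((k : ℚ) + 1) ^ 2) = dt m k * (((m : ℚ) - k) * ((m : ℚ) + k + 1)) := by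
      push_cast at h1 h2
      rw [dt, dt, ← add_assoc]
      linear_combination ((m + k + 1).choose (k + 1) : ℚ) * ((k : ℚ) + 1) * h1 +
        (m.choose k : ℚ) * ((m : ℚ) - k) * h2
    have c1 : (k : ℚ) + 1 ≠ 0 := by positivity
    have c3 : 2 * (k : ℚ) + 1 ≠ 0 := by positivity
    rw [prod_range_succ, ch_succ, pow_succ]
    have c4 : (((k : ℚ) + 1) ^ 2) ≠ 0 := pow_ne_zero _ c1
    apply mul_right_cancel₀ c4
    rw [h5, ih]
    generalize ∏ t ∈ range k, (1 - ((2 * (m : ℚ) + 1) / (2 * (t : ℚ) + 1)) ^ 2) = P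
    have c5 : 2 * (k : ℚ) + 2 = 2 * (k + 1) := by ring
    rw [c5]
    field_simp
    ring

/-- step 3 -/
theorem DD_TT {m : ℕ} (hpm : p = 2 * m + 1) : EQ p 2 (DD m) (TT m) := by
  rw [DD, TT]
  refine EQ.sum fun k hk => ?_
  have hk' := mem_range.1 hk
  rw [dt_eq]
  have h1 : EQ p 2 (∏ t ∈ range k, (1 - ((2 * (m : ℚ) + 1) / (2 * (t : ℚ) + 1)) ^ 2))
      (∏ t ∈ range k, (1 : ℚ)) := by
    refine EQ.prod fun t ht => ?_
    have ht' := mem_range.1 ht
    have u := U_nat (p := p) (k := 2 * t + 1) (by omega) (by omega)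
    push_cast at u
    have h2 : (2 * (m : ℚ) + 1) = p := by rw [hpm]; push_cast; ring
    rw [h2, div_pow, div_eq_mul_inv]
    have u2 := (u.pow 2).inv
    refine ⟨sub_mem (one_mem _) (mul_mem (pow_mem p_mem 2) u2.2.1), one_mem _,
      -((2 * (t : ℚ) + 1) ^ 2)⁻¹, neg_mem u2.2.1, ?_⟩
    ring
  rw [prod_const_one] at h1
  have h3 := (EQ.refl (k := 2) (mul_mem (pow_mem (neg_mem (one_mem (Zp p))) k)
    (pow_mem (ch_U hpm (by omega : k ≤ m)).2.1 2))).mul h1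
  rw [mul_one] at h3
  exact h3

/-- `H_m - H_{m-k}` and the odd harmonic sums -/
theorem odd_harm {m k : ℕ} (hpm : p = 2 * m + 1) (hk : k ≤ m) :
    EQ p 1 (∑ j ∈ range k, (2 * (j : ℚ) + 1)⁻¹) (-((2 : ℚ)⁻¹ * (H m - H (m - k)))) := by
  rw [← H_sub m k hk, mul_sum, ← sum_neg_distrib]
  refine EQ.sum fun j hj => ?_
  have hj' := mem_range.1 hj
  have u := U_nat (p := p) (k := 2 * j + 1) (by omega) (by omega)
  push_cast at u
  have u1 := U_nat (p := p) (k := 2) (by omega) (by omega)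
  have u2 := U_nat (p := p) (k := m - j) (by omega) (by omega)
  rw [Nat.cast_sub (by omega)] at u2
  push_cast at u1
  refine ⟨u.2.2, neg_mem (mul_mem u1.2.2 u2.2.2), (2 * (j : ℚ) + 1)⁻¹ * ((2 : ℚ)⁻¹ * ((m : ℚ) - j)⁻¹),
    mul_mem u.2.2 (mul_mem u1.2.2 u2.2.2), ?_⟩
  have h2 : (p : ℚ) = 2 * m + 1 := by rw [hpm]; push_cast; ring
  have a1 := u.1
  have a2 := u2.1
  rw [h2]
  field_simp
  ring

/-- `ch (m-k)` in terms of `ch m` -/
theorem ch_sub {m k : ℕ} (hpm : p = 2 * m + 1) (hk : k ≤ m) :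
    ch (m - k) * ∏ j ∈ range k, (2 * ((j : ℚ) + 1) - p) = ch m * ∏ j ∈ range k, (2 * (j : ℚ) + 1 - p) := by
  induction k with
  | zero => simp
  | succ k ih =>
    have ih := ih (by omega)
    obtain ⟨t, ht⟩ : ∃ t, m = t + (k + 1) := ⟨m - (k + 1), by omega⟩
    have e1 : m - k = t + 1 := by omega
    have e2 : m - (k + 1) = t := by omega
    rw [e1, ch_succ] at ih
    rw [e2, prod_range_succ, prod_range_succ]
    have e3 : 2 * (k : ℚ) + 1 - p = -(2 * t + 2) := by rw [hpm, ht]; push_cast; ring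
    have e4 : 2 * ((k : ℚ) + 1) - p = -(2 * t + 1) := by rw [hpm, ht]; push_cast; ring
    rw [e3, e4]
    have c : 2 * (t : ℚ) + 2 ≠ 0 := by positivity
    field_simp at ih
    linear_combination (-1) * ih

theorem p_half_I {x : ℚ} (u : U p (2 : ℚ)) (hx : x ∈ Zp p) : I p 1 ((p : ℚ) * (2 : ℚ)⁻¹ * x) := by
  have := (I_p (p := p)).mulR (mul_mem u.2.2 hx)
  rwa [← mul_assoc] at this

/-- expansion of `ch (m-k) / ch m` -/
theorem ch_exp {m k : ℕ} (hpm : p = 2 * m + 1) (hk : k ≤ m) (hm : 0 < m) :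
    EQ p 2 (ch (m - k)) (ch m * ch k * (1 + p * (2 : ℚ)⁻¹ * (H m - H (m - k) + H k))) := by
  have u2 : U p (2 : ℚ) := by
    have := U_nat (p := p) (k := 2) (by omega) (by omega)
    exact_mod_cast this
  have h1 := prod1 (p := p) (s := range k) (e := fun j : ℕ => 2 * (j : ℚ) + 1) (δ := (p : ℚ)) (fun i hi => by
    have hi' := mem_range.1 hi
    have := U_nat (p := p) (k := 2 * i + 1) (by omega) (by omega)
    push_cast at this
    exact this) I_p
  have h2 := prod1 (p := p) (s := range k) (e := fun j : ℕ => 2 * ((j : ℚ) + 1)) (δ := (p : ℚ)) (fun i hi => by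
    have hi' := mem_range.1 hi
    have := U_nat (p := p) (k := 2 * (i + 1)) (by omega) (by omega)
    push_cast at this
    exact this) I_p
  have e2 : ∑ j ∈ range k, (2 * ((j : ℚ) + 1))⁻¹ = (2 : ℚ)⁻¹ * H k := by
    rw [H, mul_sum]
    exact sum_congr rfl fun j _ => by rw [mul_inv, one_div]
  rw [e2] at h2
  have h3 := odd_harm hpm hk
  have hH1 := H_mem (p := p) (m := m) (by omega)
  have hH2 := H_mem (p := p) (m := m - k) (by omega)
  have hH3 := H_mem (p := p) (m := k) (by omega)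
  -- the first product
  have h4 : EQ p 2 (∏ j ∈ range k, (2 * (j : ℚ) + 1 - p)) ((∏ j ∈ range k, (2 * (j : ℚ) + 1)) *
      (1 + p * (2 : ℚ)⁻¹ * (H m - H (m - k)))) := by
    have m1 : ∏ j ∈ range k, (2 * (j : ℚ) + 1) ∈ Zp p := prod_mem fun j _ =>
      add_mem (mul_mem u2.2.1 (nat_mem j)) (one_mem _)
    refine h1.trans ⟨h1.2.1, mul_mem m1 (add_mem (one_mem _) (mul_mem (mul_mem p_mem u2.2.2)
      (sub_mem hH1 hH2))), ?_⟩
    have h5 := (I_p (p := p)).mul h3.2.2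
    have h6 := h5.neg.mulL m1
    have e : (∏ j ∈ range k, (2 * (j : ℚ) + 1)) * (1 - p * ∑ i ∈ range k, (2 * (i : ℚ) + 1)⁻¹) -
        (∏ j ∈ range k, (2 * (j : ℚ) + 1)) * (1 + p * (2 : ℚ)⁻¹ * (H m - H (m - k))) =
        (∏ j ∈ range k, (2 * (j : ℚ) + 1)) * -((p : ℚ) * (∑ j ∈ range k, (2 * (j : ℚ) + 1)⁻¹ -
          -((2 : ℚ)⁻¹ * (H m - H (m - k))))) := by ring
    rw [e]
    exact h6
  have u3 : U p (∏ j ∈ range k, (2 * ((j : ℚ) + 1))) := U.prod fun j hj => by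
    have hj' := mem_range.1 hj
    have := U_nat (p := p) (k := 2 * (j + 1)) (by omega) (by omega)
    push_cast at this
    exact this
  have hI := p_half_I (p := p) u2 hH3
  have u5 : U p (1 - p * ((2 : ℚ)⁻¹ * H k)) := by
    refine U_of_not_I (sub_mem (one_mem _) (mul_mem p_mem (mul_mem u2.2.2 hH3))) fun h => ?_
    apply not_I_one (p := p)
    have := h.add hI
    have e : 1 - (p : ℚ) * ((2 : ℚ)⁻¹ * H k) + p * (2 : ℚ)⁻¹ * H k = 1 := by ring
    rwa [e] at this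
  have u6 := h2.symm.unit two_pos (u3.mul u5)
  -- the quotient of `∏(2j+1)` by `∏ 2(j+1)`
  have e5 : ch k * ∏ j ∈ range k, (2 * ((j : ℚ) + 1)) = ∏ j ∈ range k, (2 * (j : ℚ) + 1) := by
    rw [ch_prod, ← prod_mul_distrib]
    refine prod_congr rfl fun j _ => ?_
    have c : 2 * (j : ℚ) + 2 ≠ 0 := by positivity
    rw [div_mul_eq_mul_div, div_eq_iff c]; ring
  have h7 : EQ p 2 (ch (m - k) * ((∏ j ∈ range k, (2 * ((j : ℚ) + 1))) * (1 - p * ((2 : ℚ)⁻¹ * H k))))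
      (ch m * ((∏ j ∈ range k, (2 * (j : ℚ) + 1)) * (1 + p * (2 : ℚ)⁻¹ * (H m - H (m - k))))) := by
    have a1 := (EQ.refl (k := 2) (ch_U hpm (by omega : m - k ≤ m)).2.1).mul h2
    have a2 := (EQ.refl (k := 2) (ch_U hpm (le_refl m)).2.1).mul h4
    rw [ch_sub hpm hk] at a1
    exact a1.symm.trans a2
  rw [← e5] at h7
  -- multiply by the inverse
  have u8 := (u3.inv)
  have h8 := (h7.mul (EQ.refl (k := 2) u8.2.1)).mul (EQ.refl (k := 2) (add_mem (one_mem (Zp p)) hI.mem))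
  have b1 := u3.1
  generalize ∏ j ∈ range k, (2 * ((j : ℚ) + 1)) = P at *
  have e6 : ch (m - k) * (P * (1 - p * ((2 : ℚ)⁻¹ * H k))) * P⁻¹ * (1 + p * (2 : ℚ)⁻¹ * H k) =
      ch (m - k) - (p * (2 : ℚ)⁻¹ * H k) * (p * (2 : ℚ)⁻¹ * H k) * ch (m - k) := by
    field_simp
    ring
  have e7 : ch m * (ch k * P * (1 + p * (2 : ℚ)⁻¹ * (H m - H (m - k)))) * P⁻¹ *
      (1 + p * (2 : ℚ)⁻¹ * H k) = ch m * ch k * (1 + p * (2 : ℚ)⁻¹ * (H m - H (m - k) + H k)) +
      (p * (2 : ℚ)⁻¹ * (H m - H (m - k))) * (p * (2 : ℚ)⁻¹ * H k) * (ch m * ch k) := by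
    field_simp
    ring
  rw [e6, e7] at h8
  have hI2 := p_half_I (p := p) u2 (sub_mem hH1 hH2)
  have c1 := (hI.mul hI).mulR (ch_U hpm (by omega : m - k ≤ m)).2.1
  have c2 := (hI2.mul hI).mulR (mul_mem (ch_U hpm (le_refl m)).2.1 (ch_U hpm hk).2.1)
  refine ⟨(ch_U hpm (by omega : m - k ≤ m)).2.1, mul_mem (mul_mem (ch_U hpm (le_refl m)).2.1
    (ch_U hpm hk).2.1) (add_mem (one_mem _) (p_half_I u2 (add_mem (sub_mem hH1 hH2) hH3)).mem), ?_⟩
  have c3 := (h8.2.2.add c1).add c2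
  convert c3 using 1
  ring

/-- step 4 -/
theorem TT_conv (hpn : p = 4 * n + 1) : EQ p 2 (ch n) (ch (2 * n) * (TT (2 * n) *
    (1 + p * (2 : ℚ)⁻¹ * H (2 * n)))) := by
  have hn := hn0 hpn
  have hpm : p = 2 * (2 * n) + 1 := by omega
  have u2 := unit2 hpn
  obtain ⟨m, hm⟩ : ∃ m, m = 2 * n := ⟨_, rfl⟩
  rw [← hm] at hpm ⊢
  have h0 := hh_even n
  rw [← hm] at h0
  rw [← h0, hh]
  have hHm : ∀ k, k ≤ m → H k ∈ Zp p := fun k hk => H_mem (by omega)
  have hch : ∀ k, k ≤ m → ch k ∈ Zp p := fun k hk => (ch_U hpm hk).2.1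
  have s1 : ∀ k : ℕ, (-1 : ℚ) ^ k ∈ Zp p := fun k => pow_mem (neg_mem (one_mem _)) k
  have h1 : EQ p 2 (∑ i ∈ range (m + 1), (-1) ^ i * (ch i * ch (m - i)))
      (∑ i ∈ range (m + 1), (-1) ^ i * (ch i * (ch m * ch i * (1 + p * (2 : ℚ)⁻¹ *
        (H m - H (m - i) + H i))))) := by
    refine EQ.sum fun i hi => ?_
    have hi' := mem_range.1 hi
    exact (EQ.refl (s1 i)).mul ((EQ.refl (hch i (by omega))).mul (ch_exp hpm (by omega) (by omega)))
  -- the antisymmetric part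
  have h2 : I p 1 (∑ i ∈ range (m + 1), (-1) ^ i * (ch i ^ 2 * (H i - H (m - i)))) := by
    have r1 := sum_range_reflect (fun i => (-1 : ℚ) ^ i * (ch i ^ 2 * (H i - H (m - i)))) (m + 1)
    have r2 : EQ p 1 (∑ j ∈ range (m + 1), (-1 : ℚ) ^ (m + 1 - 1 - j) * (ch (m + 1 - 1 - j) ^ 2 *
        (H (m + 1 - 1 - j) - H (m - (m + 1 - 1 - j)))))
        (∑ j ∈ range (m + 1), -((-1 : ℚ) ^ j * (ch j ^ 2 * (H j - H (m - j))))) := by
      refine EQ.sum fun j hj => ?_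
      have hj' := mem_range.1 hj
      rw [show m + 1 - 1 - j = m - j by omega, show m - (m - j) = j by omega]
      have e : (-1 : ℚ) ^ (m - j) = (-1) ^ j := by
        have h3 : (-1 : ℚ) ^ (m - j) * (-1) ^ j = 1 := by
          rw [← pow_add, Nat.sub_add_cancel (by omega), hm, pow_mul]; norm_num
        have h4 : (-1 : ℚ) ^ j * (-1) ^ j = 1 := by rw [← mul_pow]; norm_num
        have h5 : (-1 : ℚ) ^ j ≠ 0 := pow_ne_zero _ (by norm_num)
        apply mul_right_cancel₀ h5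
        rw [h3, h4]
      rw [e]
      have h6 := (EQ.refl (k := 1) (s1 j)).mul ((ch_refl hpm (by omega : j ≤ m)).mul
        (EQ.refl (k := 1) (sub_mem (hHm (m - j) (by omega)) (hHm j (by omega)))))
      have e2 : -((-1 : ℚ) ^ j * (ch j ^ 2 * (H j - H (m - j)))) =
        (-1 : ℚ) ^ j * (ch j ^ 2 * (H (m - j) - H j)) := by ring
      rw [e2]
      exact h6
    rw [r1, sum_neg_distrib] at r2
    have r3 := r2.2.2
    have e : (∑ i ∈ range (m + 1), (-1 : ℚ) ^ i * (ch i ^ 2 * (H i - H (m - i)))) -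
        -∑ i ∈ range (m + 1), (-1 : ℚ) ^ i * (ch i ^ 2 * (H i - H (m - i))) =
        2 * ∑ i ∈ range (m + 1), (-1 : ℚ) ^ i * (ch i ^ 2 * (H i - H (m - i))) := by ring
    rw [e] at r3
    exact u2.cancel r3
  have e3 : ∑ i ∈ range (m + 1), (-1 : ℚ) ^ i * (ch i * (ch m * ch i * (1 + p * (2 : ℚ)⁻¹ *
        (H m - H (m - i) + H i)))) = ch m * (TT m * (1 + p * (2 : ℚ)⁻¹ * H m)) +
        p * (∑ i ∈ range (m + 1), (-1) ^ i * (ch i ^ 2 * (H i - H (m - i)))) * (ch m * (2 : ℚ)⁻¹) := by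
    rw [TT, sum_mul, mul_sum, mul_sum, sum_mul, ← sum_add_distrib]
    exact sum_congr rfl fun i _ => by ring
  rw [e3] at h1
  have h3 := ((I_p (p := p)).mul h2).mulR (mul_mem (hch m (le_refl m)) u2.2.2)
  have mT : TT m ∈ Zp p := sum_mem fun k hk => mul_mem (s1 k) (pow_mem (hch k (by
    have := mem_range.1 hk; omega)) 2)
  refine h1.trans ⟨h1.2.1, mul_mem (hch m (le_refl m)) (mul_mem mT (add_mem (one_mem _)
    (p_half_I u2 (hHm m (le_refl m))).mem)), ?_⟩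
  rw [add_sub_cancel_left]
  exact h3

/-- step 5 -/
theorem ch_two (hpn : p = 4 * n + 1) : EQ p 2 (((2 * n).choose n : ℚ) * ch (2 * n))
    ((-1) ^ n * ch n * (1 - p * (2 : ℚ)⁻¹ * H n)) := by
  have hn := hn0 hpn
  have u2 := unit2 hpn
  have h1 : ∀ l : ℕ, ch (n + l) * ∏ j ∈ range l, (2 * ((n : ℚ) + j + 1)) =
      ch n * ∏ j ∈ range l, (2 * ((n : ℚ) + j) + 1) := by
    intro l
    induction l with
    | zero => simp
    | succ l ih =>
      have h := ch_s (n + l)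
      rw [prod_range_succ, prod_range_succ, ← add_assoc]
      push_cast at h
      linear_combination (∏ j ∈ range l, (2 * ((n : ℚ) + j + 1))) * h + (2 * ((n : ℚ) + l) + 1) * ih
  have h2 := h1 n
  rw [← two_mul] at h2
  -- the first product
  have e1 : ∏ j ∈ range n, (2 * ((n : ℚ) + j + 1)) = 2 ^ n * (((2 * n).choose n : ℚ) * n.factorial) := by
    rw [prod_mul_distrib, prod_const, card_range, ← prod_choose (2 * n) n (by omega),
      ← prod_range_reflect (fun j : ℕ => ((2 * n : ℕ) : ℚ) - j)]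
    congr 1
    refine prod_congr rfl fun j hj => ?_
    have hj' := mem_range.1 hj
    rw [Nat.cast_sub (by omega), Nat.cast_sub (by omega)]
    push_cast
    ring
  have e2 : ∏ j ∈ range n, (2 * ((n : ℚ) + j) + 1) = (-2) ^ n * ∏ j ∈ range n, (((n : ℕ) : ℚ) - j -
      p * (2 : ℚ)⁻¹) := by
    rw [← card_range n, ← prod_const, card_range, ← prod_mul_distrib]
    refine prod_congr rfl fun j _ => ?_
    have : (p : ℚ) = 4 * n + 1 := by exact_mod_cast hpn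
    rw [this]
    ring
  have hI : I p 1 ((p : ℚ) * (2 : ℚ)⁻¹) := (I_p (p := p)).mulR u2.2.2
  have h3 := prodH (p := p) (a := n) (b := n) (le_refl n) (by omega) hI
  rw [prod_choose _ _ (le_refl n), Nat.choose_self, Nat.sub_self] at h3
  have hH0 : H 0 = 0 := by simp [H]
  rw [hH0, sub_zero, Nat.cast_one, one_mul] at h3
  rw [e1, e2] at h2
  have uk := U_fac (p := p) (k := n) (by omega)
  have hc := (ch_U (m := 2 * n) (p := p) (by omega) (by omega : n ≤ 2 * n)).2.1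
  have h4 := (EQ.refl (k := 2) (mul_mem (pow_mem (neg_mem (one_mem (Zp p))) n) hc)).mul
    (h3.mul (EQ.refl (k := 2) uk.2.2))
  have a1 := uk.1
  have e3 : ((-1 : ℚ)) ^ n * ch n * ((∏ i ∈ range n, (((n : ℕ) : ℚ) - i - p * (2 : ℚ)⁻¹)) * (n.factorial : ℚ)⁻¹) =
      ((2 * n).choose n : ℚ) * ch (2 * n) := by
    have a2 : ((2 : ℚ)) ^ n ≠ 0 := pow_ne_zero _ (by norm_num)
    have e4 : (-2 : ℚ) ^ n = (-1) ^ n * 2 ^ n := by rw [← mul_pow]; norm_num
    rw [e4] at h2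
    generalize ∏ i ∈ range n, (((n : ℕ) : ℚ) - i - p * (2 : ℚ)⁻¹) = P at *
    have h2' : ch (2 * n) * (((2 * n).choose n : ℚ) * n.factorial) = ch n * ((-1) ^ n * P) := by
      apply mul_left_cancel₀ a2
      linear_combination h2
    have h9 : (-1 : ℚ) ^ n * ch n * (P * (n.factorial : ℚ)⁻¹) = ch n * ((-1) ^ n * P) / n.factorial := by
      rw [div_eq_mul_inv]; ring
    rw [h9, ← h2', div_eq_iff a1]
    ring
  have e5 : ((-1 : ℚ)) ^ n * ch n * (n.factorial * (1 - p * (2 : ℚ)⁻¹ * H n) * (n.factorial : ℚ)⁻¹) =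
      (-1) ^ n * ch n * (1 - p * (2 : ℚ)⁻¹ * H n) := by
    field_simp
  rw [e3, e5] at h4
  exact h4

end Pool.Agent.R439.PL.FD
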