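import Pool.Agent.R439.FD.Defs
import Pool.Agent.R488.Cub.JSum

set_option autoImplicit false

/-!
FD-SUM: power sum expansion of the quartic Jacobi sum modulo `p^2` (MP_fdcced_nt).
-/

namespace Pool.Agent.R439.FD

open Finset Pool.Agent.R439.PL
open Pool.Agent.R488.Cub.JSm

namespace JSq

variable {p : ℕ} [hp : Fact p.Prime]

/-- the inner sum over `k` -/
theorem inner {n i : ℕ} (hn : 0 < n) (hi : i < 3 * n) (hpn : p = 4 * n + 1) (f : ℕ → ℚ) :
    ∑ k ∈ Ico 1 p, (if (p - 1) ∣ 3 * n + k + i then f k else 0) =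
      f (if i < n then n - i else 5 * n - i) := by
  have hp1 : p - 1 = 4 * n := by omega
  rw [hp1]
  have hmem : (if i < n then n - i else 5 * n - i) ∈ Ico 1 p := by
    rw [mem_Ico]
    split_ifs <;> omega
  rw [sum_eq_single_of_mem _ hmem]
  · rw [if_pos]
    split_ifs with h
    · exact ⟨1, by omega⟩
    · exact ⟨2, by omega⟩
  · intro k hk hne
    rw [mem_Ico] at hk
    rw [if_neg]
    rintro ⟨c, hc⟩
    have c0 : c ≠ 0 := by rintro rfl; omega
    have c3 : c < 3 := by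
      by_contra h
      have := Nat.mul_le_mul_left (4 * n) (not_lt.1 h)
      omega
    apply hne
    have : c = 1 ∨ c = 2 := by omega
    rcases this with rfl | rfl
    · split_ifs <;> omega
    · split_ifs <;> omega

end JSq

open JSq in
theorem jsum : StmtSum := by
  intro p n hp hpn
  have h2 := hp.out.two_le
  have hn : 0 < n := by omega
  have hodd : Odd p := ⟨2 * n, by omega⟩
  obtain ⟨m, hm⟩ : ∃ m, 3 * n = m + 1 := ⟨3 * n - 1, by omega⟩
  have hp1 : p - 1 = 4 * n := by omega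
  have hpq : (p : ℚ) = 4 * n + 1 := by rw [hpn]; push_cast; ring
  -- expansion
  have s1 : EQ p 2 (JQ p n)
      (∑ x ∈ range p, ((∑ i ∈ range (m + 2), ((-1) ^ i * ((m + 1).choose i : ℚ)) *
        ((x : ℚ) ^ p) ^ (m + 1 + i)) -
        (m + 1 : ℕ) * (p * ∑ k ∈ Ico 1 p, ∑ i ∈ range (m + 1),
          ((-1) ^ i * (m.choose i : ℚ) / k) * ((x : ℚ) ^ p) ^ (m + 1 + k + i)))) := by
    rw [JQ, hm]
    exact EQ.sum fun x _ => term hodd m x
  have s2 : (∑ x ∈ range p, ((∑ i ∈ range (m + 2), ((-1) ^ i * ((m + 1).choose i : ℚ)) *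
        ((x : ℚ) ^ p) ^ (m + 1 + i)) -
        (m + 1 : ℕ) * (p * ∑ k ∈ Ico 1 p, ∑ i ∈ range (m + 1),
          ((-1) ^ i * (m.choose i : ℚ) / k) * ((x : ℚ) ^ p) ^ (m + 1 + k + i)))) =
      (∑ i ∈ range (m + 2), ((-1) ^ i * ((m + 1).choose i : ℚ)) * PS p (m + 1 + i)) -
        (m + 1 : ℕ) * (p * ∑ k ∈ Ico 1 p, ∑ i ∈ range (m + 1),
          ((-1) ^ i * (m.choose i : ℚ) / k) * PS p (m + 1 + k + i)) := by
    rw [sum_sub_distrib, sum_comm, ← mul_sum, ← mul_sum]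
    congr 1
    · refine sum_congr rfl fun i _ => ?_
      rw [PS, mul_sum]
    · congr 2
      rw [sum_comm]
      refine sum_congr rfl fun k _ => ?_
      rw [sum_comm]
      refine sum_congr rfl fun i _ => ?_
      rw [PS, mul_sum]
  have hcm : ∀ (r i k : ℕ), k ∈ Ico 1 p → ((-1) ^ i * (r.choose i : ℚ) / k) ∈ Zp p := by
    intro r i k hk
    rw [mem_Ico] at hk
    rw [div_eq_mul_inv]
    exact mul_mem (mul_mem (neg_mem' i) (nat_mem _)) (U_nat (by omega) hk.2).2.2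
  have s3 : EQ p 2 ((∑ i ∈ range (m + 2), ((-1) ^ i * ((m + 1).choose i : ℚ)) *
        PS p (m + 1 + i)) -
        (m + 1 : ℕ) * (p * ∑ k ∈ Ico 1 p, ∑ i ∈ range (m + 1),
          ((-1) ^ i * (m.choose i : ℚ) / k) * PS p (m + 1 + k + i)))
      ((∑ i ∈ range (m + 2), ((-1) ^ i * ((m + 1).choose i : ℚ)) *
        (if (p - 1) ∣ m + 1 + i then (p : ℚ) - 1 else 0)) -
        (m + 1 : ℕ) * (p * ∑ k ∈ Ico 1 p, ∑ i ∈ range (m + 1),
          ((-1) ^ i * (m.choose i : ℚ) / k) *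
            (if (p - 1) ∣ m + 1 + k + i then (p : ℚ) - 1 else 0))) := by
    refine EQ.sub (EQ.sum fun i _ => ?_) ((EQ.refl (nat_mem _)).mul ((EQ.refl p_mem).mul
      (EQ.sum fun k hk => EQ.sum fun i _ => ?_)))
    · exact (EQ.refl (mul_mem (neg_mem' i) (nat_mem _))).mul (PS_eq (by omega))
    · exact (EQ.refl (hcm m i k hk)).mul (PS_eq (by omega))
  -- the first sum
  have f1 : (∑ i ∈ range (m + 2), ((-1) ^ i * ((m + 1).choose i : ℚ)) *
        (if (p - 1) ∣ m + 1 + i then (p : ℚ) - 1 else 0)) =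
      (-1) ^ n * ((p : ℚ) - 1) * ((3 * n).choose n : ℚ) := by
    rw [← hm, hp1, sum_eq_single_of_mem n (mem_range.2 (by omega))]
    · rw [if_pos ⟨1, by omega⟩]
      ring
    · intro i hi hne
      rw [mem_range] at hi
      rw [if_neg, mul_zero]
      rintro ⟨c, hc⟩
      have c0 : c ≠ 0 := by rintro rfl; omega
      have c2 : c < 2 := by
        by_contra h
        have := Nat.mul_le_mul_left (4 * n) (not_lt.1 h)
        omega
      have : c = 1 := by omega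
      subst this
      omega
  -- the second sum
  set Zx : ℚ := ∑ i ∈ range (3 * n), ((-1) ^ i * ((3 * n - 1).choose i : ℚ)) /
    ((if i < n then n - i else 5 * n - i : ℕ) : ℚ) with hZx
  have f2 : ∑ k ∈ Ico 1 p, ∑ i ∈ range (m + 1), ((-1) ^ i * (m.choose i : ℚ) / k) *
      (if (p - 1) ∣ m + 1 + k + i then (p : ℚ) - 1 else 0) = ((p : ℚ) - 1) * Zx := by
    have hm' : m = 3 * n - 1 := by omega
    rw [sum_comm, ← hm, hm', hZx, mul_sum]
    refine sum_congr rfl fun i hi => ?_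
    have hi' := mem_range.1 hi
    have := inner (p := p) hn hi' hpn
      (fun k => ((-1) ^ i * ((3 * n - 1).choose i : ℚ) / (k : ℚ)) * ((p : ℚ) - 1))
    rw [mul_comm ((p : ℚ) - 1), ← this]
    refine sum_congr rfl fun k _ => ?_
    rw [mul_ite, mul_zero]
  -- `Zx` modulo `p`
  have f3 : EQ p 1 Zx (ZQ (3 * n - 1) n + (-1) ^ n * ZQ (3 * n - 1) (2 * n)) := by
    have e1 : 3 * n = n + 2 * n := by ring
    have e2 : Zx = (∑ i ∈ range n, ((-1) ^ i * ((3 * n - 1).choose i : ℚ)) /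
          ((if i < n then n - i else 5 * n - i : ℕ) : ℚ)) +
        ∑ i ∈ range (2 * n), ((-1) ^ (n + i) * ((3 * n - 1).choose (n + i) : ℚ)) /
          ((if n + i < n then n - (n + i) else 5 * n - (n + i) : ℕ) : ℚ) := by
      rw [hZx]
      conv_lhs => rw [show range (3 * n) = range (n + 2 * n) by rw [← e1]]
      rw [sum_range_add]
    have e3 : (∑ i ∈ range n, ((-1) ^ i * ((3 * n - 1).choose i : ℚ)) /
          ((if i < n then n - i else 5 * n - i : ℕ) : ℚ)) = ZQ (3 * n - 1) n := by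
      rw [ZQ]
      refine sum_congr rfl fun i hi => ?_
      have hi' := mem_range.1 hi
      rw [if_pos hi', Nat.cast_sub hi'.le]
    have e4 : ∑ i ∈ range (2 * n), ((-1) ^ (n + i) * ((3 * n - 1).choose (n + i) : ℚ)) /
          ((if n + i < n then n - (n + i) else 5 * n - (n + i) : ℕ) : ℚ) =
        (-1) ^ n * ∑ i ∈ range (2 * n), -((-1) ^ i * ((3 * n - 1).choose i : ℚ)) /
          ((2 * n + 1 + i : ℕ) : ℚ) := by
      rw [← Finset.sum_range_reflect, mul_sum]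
      refine sum_congr rfl fun i hi => ?_
      have hi' := mem_range.1 hi
      rw [if_neg (by omega)]
      have a1 : 5 * n - (n + (2 * n - 1 - i)) = 2 * n + 1 + i := by omega
      have a2 : n + (2 * n - 1 - i) = 3 * n - 1 - i := by omega
      have a3 : (3 * n - 1).choose (3 * n - 1 - i) = (3 * n - 1).choose i :=
        Nat.choose_symm (by omega)
      have a4 : (-1 : ℚ) ^ (3 * n - 1 - i) = -((-1) ^ n * (-1) ^ i) := by
        have b1 : (-1 : ℚ) ^ (3 * n - 1 - i) * ((-1) ^ n * (-1) ^ i) = -1 := by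
          rw [← pow_add, ← pow_add]
          exact Odd.neg_one_pow ⟨2 * n - 1, by omega⟩
        have b2 : ((-1 : ℚ) ^ n * (-1) ^ i) * ((-1 : ℚ) ^ n * (-1) ^ i) = 1 := by
          rw [← pow_add, ← pow_add]
          exact Even.neg_one_pow ⟨n + i, rfl⟩
        calc (-1 : ℚ) ^ (3 * n - 1 - i) = (-1 : ℚ) ^ (3 * n - 1 - i) *
              (((-1 : ℚ) ^ n * (-1) ^ i) * ((-1 : ℚ) ^ n * (-1) ^ i)) := by
              rw [b2, mul_one]
          _ = ((-1 : ℚ) ^ (3 * n - 1 - i) * ((-1 : ℚ) ^ n * (-1) ^ i)) *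
              ((-1) ^ n * (-1) ^ i) := by ring
          _ = -((-1) ^ n * (-1) ^ i) := by rw [b1]; ring
      rw [a1, a2, a3, a4]
      ring
    have e5 : EQ p 1 (∑ i ∈ range (2 * n), -((-1) ^ i * ((3 * n - 1).choose i : ℚ)) /
        ((2 * n + 1 + i : ℕ) : ℚ)) (ZQ (3 * n - 1) (2 * n)) := by
      rw [ZQ]
      refine EQ.sum fun i hi => ?_
      have hi' := mem_range.1 hi
      have u1 : U p ((2 * n + 1 + i : ℕ) : ℚ) := U_nat (by omega) (by omega)
      have c1 : EQ p 1 ((2 * n + 1 + i : ℕ) : ℚ) (((i : ℤ) - 2 * n : ℤ) : ℚ) := by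
        have := EQ_int (p := p) (k := 1) (a := ((2 * n + 1 + i : ℕ) : ℤ)) (b := (i : ℤ) - 2 * n)
          (by rw [pow_one]; exact ⟨1, by rw [hpn]; push_cast; ring⟩)
        push_cast at this ⊢
        exact this
      have c2 := EQ.div one_pos
        (EQ.refl (p := p) (k := 1) (neg_mem (mul_mem (neg_mem' i) (nat_mem ((3 * n - 1).choose i)))))
        c1 u1
      have c3 : -((-1 : ℚ) ^ i * ((3 * n - 1).choose i : ℚ)) / (((i : ℤ) - 2 * n : ℤ) : ℚ) =
          (-1) ^ i * ((3 * n - 1).choose i : ℚ) / (((2 * n : ℕ) : ℚ) - i) := by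
        have d2 : (((i : ℤ) - 2 * n : ℤ) : ℚ) = -(((2 * n : ℕ) : ℚ) - i) := by push_cast; ring
        rw [d2, neg_div_neg_eq]
      rw [c3] at c2
      exact c2
    have e7 : ZQ (3 * n - 1) n ∈ Zp p := by
      rw [ZQ]
      refine sum_mem fun i hi => ?_
      have hi' := mem_range.1 hi
      rw [← Nat.cast_sub hi'.le]
      exact hcm _ _ _ (by rw [mem_Ico]; omega)
    rw [e2, e3, e4]
    exact (EQ.refl e7).add ((EQ.refl (neg_mem' n)).mul e5)
  -- conclusion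
  rw [s2] at s1
  refine (s1.trans s3).trans ?_
  rw [f1, f2]
  set W : ℚ := ZQ (3 * n - 1) n + (-1) ^ n * ZQ (3 * n - 1) (2 * n) with hW
  have hZxm : Zx ∈ Zp p := f3.1
  have g1 : EQ p 1 (-(((p : ℚ) - 1) * Zx)) W := by
    refine EQ.trans ?_ f3
    refine ⟨neg_mem (mul_mem (sub_mem p_mem (one_mem _)) hZxm), hZxm, ?_⟩
    exact ⟨-Zx, neg_mem hZxm, by ring⟩
  have g2 : EQ p 2 ((p : ℚ) * (-(((p : ℚ) - 1) * Zx))) (p * W) := by
    refine ⟨mul_mem p_mem g1.1, mul_mem p_mem g1.2.1, ?_⟩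
    rw [← mul_sub]
    exact I_p_mul_iff.2 g1.2.2
  have g3 := (EQ.refl (p := p) (k := 2) (nat_mem (m + 1))).mul g2
  have g4 : EQ p 2 ((-1) ^ n * ((p : ℚ) - 1) * ((3 * n).choose n : ℚ))
      ((-1) ^ n * ((p : ℚ) - 1) * ((3 * n).choose n : ℚ)) :=
    EQ.refl (mul_mem (mul_mem (neg_mem' n) (sub_mem p_mem (one_mem _))) (nat_mem _))
  have g5 := g4.add g3
  have k1 : (-1) ^ n * ((p : ℚ) - 1) * ((3 * n).choose n : ℚ) +
      ((m + 1 : ℕ) : ℚ) * ((p : ℚ) * (-(((p : ℚ) - 1) * Zx))) =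
      (-1) ^ n * ((p : ℚ) - 1) * ((3 * n).choose n : ℚ) -
        ((m + 1 : ℕ) : ℚ) * ((p : ℚ) * (((p : ℚ) - 1) * Zx)) := by ring
  have k2 : ((m + 1 : ℕ) : ℚ) = 3 * n := by rw [← hm]; push_cast; ring
  have k3 : (-1) ^ n * ((p : ℚ) - 1) * ((3 * n).choose n : ℚ) +
      ((m + 1 : ℕ) : ℚ) * ((p : ℚ) * W) =
      (-1) ^ n * ((p : ℚ) - 1) * ((3 * n).choose n : ℚ) + 3 * n * p * W := by
    rw [k2]; ring
  rw [k1, k3] at g5
  exact g5

end Pool.Agent.R439.FD
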