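import Mathlib
import Pool.Agent.R439.FD.Defs
import Pool.Agent.R488.Cub.Jac

set_option autoImplicit false

/-!
FD-JAC: the quartic Jacobi sum modulo `p^2` (for MP_fdcced_nt).
-/

namespace Pool.Agent.R439.FD

open Finset Pool.Agent.R439.PL
open Pool.Agent.R488.Cub.Jac (N endgame sum_range_zmod powp)

namespace Jac

variable {p : ℕ} [hp : Fact p.Prime]

theorem sum_classes4 {R : Type*} [CommRing R] (χ : MulChar (ZMod p) ℂ)
    (hχ : ∀ x : ZMod p, x ≠ 0 → ∃ k, k < 4 ∧ χ x = Complex.I ^ k)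
    (f : ZMod p → R) (t : R) (hf0 : f 0 = 0) (hf1 : f 1 = 0)
    (hf : ∀ x k, k < 4 → χ (x * (1 - x)) = Complex.I ^ k → f x = t ^ k) :
    ∑ x, f x = ∑ k ∈ range 4, (N χ (Complex.I ^ k) : R) * t ^ k := by
  classical
  have h00 : χ (0 * (1 - 0)) = 0 := by rw [zero_mul]; exact MulChar.map_zero χ
  have h11 : χ (1 * (1 - 1)) = 0 := by rw [sub_self, mul_zero]; exact MulChar.map_zero χ
  have hI : ∀ k : ℕ, (0 : ℂ) ≠ Complex.I ^ k := fun k => (pow_ne_zero k Complex.I_ne_zero).symm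
  have hprim := Complex.isPrimitiveRoot_exp 4 (by norm_num)
  have hIprim : IsPrimitiveRoot Complex.I 4 := by
    have : Complex.I = Complex.exp (2 * Real.pi * Complex.I / 4) := by
      rw [show 2 * (Real.pi : ℂ) * Complex.I / 4 = (Real.pi / 2 : ℂ) * Complex.I by ring]
      rw [Complex.exp_mul_I]
      have h1 : Complex.cos ((Real.pi : ℂ) / 2) = 0 := Complex.cos_pi_div_two
      have h2 : Complex.sin ((Real.pi : ℂ) / 2) = 1 := Complex.sin_pi_div_two
      rw [h1, h2]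
      ring
    rw [this]
    exact_mod_cast hprim
  have key : ∀ x : ZMod p, f x =
      ∑ k ∈ range 4, if χ (x * (1 - x)) = Complex.I ^ k then t ^ k else 0 := by
    intro x
    by_cases hx0 : x = 0
    · subst hx0
      rw [hf0, h00]
      symm
      apply Finset.sum_eq_zero
      intro k _
      rw [if_neg (hI k)]
    by_cases hx1 : x = 1
    · subst hx1
      rw [hf1, h11]
      symm
      apply Finset.sum_eq_zero
      intro k _
      rw [if_neg (hI k)]
    have hne : x * (1 - x) ≠ 0 := mul_ne_zero hx0 (sub_ne_zero.2 (Ne.symm hx1))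
    obtain ⟨k, hk, hχk⟩ := hχ _ hne
    rw [hf x k hk hχk, Finset.sum_eq_single_of_mem k (Finset.mem_range.2 hk)]
    · rw [if_pos hχk]
    · intro l hl hlk
      rw [if_neg]
      intro h
      apply hlk
      rw [hχk] at h
      exact (hIprim.pow_inj hk (Finset.mem_range.1 hl) h).symm
  rw [Finset.sum_congr rfl fun x _ => key x, Finset.sum_comm]
  apply Finset.sum_congr rfl
  intro k _
  unfold N
  rw [← sum_filter, sum_const, nsmul_eq_mul]

/-- the involution `x ↦ 1 - x` on the classes -/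
theorem two_dvd (χ : MulChar (ZMod p) ℂ) (t : ℂ) (h : χ ((1 : ZMod p) / 2 * (1 / 2)) ≠ t)
    (hp2 : p ≠ 2) : 2 ∣ N χ t := by
  classical
  have h2 : (2 : ZMod p) ≠ 0 := by
    intro h0
    have : ((2 : ℕ) : ZMod p) = 0 := by exact_mod_cast h0
    rw [ZMod.natCast_eq_zero_iff] at this
    exact hp2 ((Nat.prime_dvd_prime_iff_eq hp.out Nat.prime_two).1 this)
  let A := {x : ZMod p // χ (x * (1 - x)) = t}
  have hf : ∀ x : A, χ ((1 - x.1) * (1 - (1 - x.1))) = t := by
    intro x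
    have e : (1 - x.1) * (1 - (1 - x.1)) = x.1 * (1 - x.1) := by ring
    rw [e]
    exact x.2
  let f : Function.End A := fun x => ⟨1 - x.1, hf x⟩
  have hf2 : f ^ 2 ^ 1 = 1 := by
    funext x
    rw [pow_one]
    change f (f x) = x
    apply Subtype.ext
    change 1 - (1 - x.1) = x.1
    ring
  have : Fact (Nat.Prime 2) := ⟨Nat.prime_two⟩
  have hc := Equiv.Perm.card_fixedPoints_modEq hf2
  have hfix : Fintype.card (Function.fixedPoints f) = 0 := by
    rw [Fintype.card_eq_zero_iff]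
    constructor
    rintro ⟨x, hx⟩
    have hx' : 1 - x.1 = x.1 := congrArg Subtype.val hx
    have h3 : x.1 = 1 / 2 := by
      rw [eq_div_iff h2]
      linear_combination -hx'
    have h4 := x.2
    have e : (1 : ZMod p) - 1 / 2 = 1 / 2 := by field_simp; ring
    rw [h3, e] at h4
    exact h h4
  rw [hfix] at hc
  have hcard : N χ t = Fintype.card A := by
    unfold N
    rw [Fintype.card_subtype]
  rw [hcard]
  exact (Nat.modEq_zero_iff_dvd).1 hc

theorem odd_class (χ : MulChar (ZMod p) ℂ) (t : ℂ) (h : χ ((1 : ZMod p) / 2 * (1 / 2)) = t)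
    (hp2 : p ≠ 2) : N χ t % 2 = 1 := by
  classical
  have h2 : (2 : ZMod p) ≠ 0 := by
    intro h0
    have : ((2 : ℕ) : ZMod p) = 0 := by exact_mod_cast h0
    rw [ZMod.natCast_eq_zero_iff] at this
    exact hp2 ((Nat.prime_dvd_prime_iff_eq hp.out Nat.prime_two).1 this)
  let A := {x : ZMod p // χ (x * (1 - x)) = t}
  have hf : ∀ x : A, χ ((1 - x.1) * (1 - (1 - x.1))) = t := by
    intro x
    have e : (1 - x.1) * (1 - (1 - x.1)) = x.1 * (1 - x.1) := by ring
    rw [e]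
    exact x.2
  let f : Function.End A := fun x => ⟨1 - x.1, hf x⟩
  have hf2 : f ^ 2 ^ 1 = 1 := by
    funext x
    rw [pow_one]
    change f (f x) = x
    apply Subtype.ext
    change 1 - (1 - x.1) = x.1
    ring
  have e : (1 : ZMod p) - 1 / 2 = 1 / 2 := by field_simp; ring
  have : Fact (Nat.Prime 2) := ⟨Nat.prime_two⟩
  have hc := Equiv.Perm.card_fixedPoints_modEq hf2
  have hfix : Fintype.card (Function.fixedPoints f) = 1 := by
    rw [Fintype.card_eq_one_iff]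
    refine ⟨⟨⟨1 / 2, by rw [e]; exact h⟩, ?_⟩, ?_⟩
    · apply Subtype.ext
      exact e
    · rintro ⟨x, hx⟩
      have hx' : 1 - x.1 = x.1 := congrArg Subtype.val hx
      have h3 : x.1 = 1 / 2 := by
        rw [eq_div_iff h2]
        linear_combination -hx'
      apply Subtype.ext
      apply Subtype.ext
      exact h3
  rw [hfix] at hc
  have hcard : N χ t = Fintype.card A := by
    unfold N
    rw [Fintype.card_subtype]
  rw [hcard]
  exact hc

end Jac

open Jac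

theorem jac : StmtJac := by
  intro p n hp h
  have hn : 0 < n := by have := hp.out.one_lt; omega
  have hp2 : p ≠ 2 := by omega
  have hpz : Prime (p : ℤ) := Nat.prime_iff_prime_int.1 hp.out
  obtain ⟨g, hg⟩ := IsCyclic.exists_generator (α := (ZMod p)ˣ)
  have hcard : Fintype.card (ZMod p)ˣ = 4 * n := by rw [ZMod.card_units]; omega
  have hord : orderOf g = 4 * n := by
    rw [orderOf_eq_card_of_forall_mem_zpowers hg, Nat.card_eq_fintype_card, hcard]
  have hI4 : Complex.I ^ 4 = 1 := Complex.I_pow_four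
  have hI0 : Complex.I ≠ 0 := Complex.I_ne_zero
  have hIprim : IsPrimitiveRoot Complex.I 4 := by
    have : Complex.I = Complex.exp (2 * Real.pi * Complex.I / 4) := by
      rw [show 2 * (Real.pi : ℂ) * Complex.I / 4 = (Real.pi / 2 : ℂ) * Complex.I by ring]
      rw [Complex.exp_mul_I]
      have h1 : Complex.cos ((Real.pi : ℂ) / 2) = 0 := Complex.cos_pi_div_two
      have h2 : Complex.sin ((Real.pi : ℂ) / 2) = 1 := Complex.sin_pi_div_two
      rw [h1, h2]
      ring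
    rw [this]
    exact_mod_cast Complex.isPrimitiveRoot_exp 4 (by norm_num)
  have hwu : Units.mk0 Complex.I hI0 ∈ rootsOfUnity (Fintype.card (ZMod p)ˣ) ℂ := by
    rw [mem_rootsOfUnity]
    apply Units.ext
    rw [Units.val_pow_eq_pow_val, Units.val_one, hcard, pow_mul]
    change (Complex.I ^ 4) ^ n = 1
    rw [hI4, one_pow]
  obtain ⟨χ, hχg⟩ : ∃ χ : MulChar (ZMod p) ℂ, χ (g : ZMod p) = Complex.I :=
    ⟨MulChar.ofRootOfUnity hwu hg, MulChar.ofRootOfUnity_spec hwu hg⟩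
  have hlog : ∀ x : ZMod p, x ≠ 0 → ∃ m : ℕ, x = (g : ZMod p) ^ m := by
    intro x hx
    have h1 := hg (Units.mk0 x hx)
    rw [← mem_powers_iff_mem_zpowers] at h1
    obtain ⟨m, hm⟩ := h1
    refine ⟨m, ?_⟩
    have h2 := congrArg Units.val hm
    simpa using h2.symm
  have hwn : ∀ m : ℕ, Complex.I ^ m = Complex.I ^ (m % 4) := by
    intro m
    conv_lhs => rw [← Nat.div_add_mod m 4]
    rw [pow_add, pow_mul, hI4, one_pow, one_mul]
  have hχ : ∀ x : ZMod p, x ≠ 0 → ∃ k, k < 4 ∧ χ x = Complex.I ^ k := by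
    intro x hx
    obtain ⟨m, rfl⟩ := hlog x hx
    exact ⟨m % 4, Nat.mod_lt _ (by norm_num), by rw [map_pow, hχg, hwn]⟩
  have hχ0 : χ 0 = 0 := MulChar.map_zero χ
  have hχ1 : χ ≠ 1 := by
    intro h1
    rw [h1, MulChar.one_apply_coe] at hχg
    have := congrArg Complex.re hχg
    simp at this
  have hχ2 : χ * χ ≠ 1 := by
    intro h1
    have h2 : (χ * χ) (g : ZMod p) = -1 := by
      rw [MulChar.mul_apply, hχg, Complex.I_mul_I]
    rw [h1, MulChar.one_apply_coe] at h2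
    norm_num at h2
  -- the integer `R`
  obtain ⟨G, hG⟩ : ∃ G : ℕ, (G : ZMod p) = (g : ZMod p) := by
    have : NeZero p := ⟨hp.out.ne_zero⟩
    exact ⟨(g : ZMod p).val, ZMod.natCast_zmod_val _⟩
  obtain ⟨R, hR⟩ : ∃ R : ℤ, R = (G : ℤ) ^ (3 * n * p) := ⟨_, rfl⟩
  have hG4 : (p : ℤ) ∣ (G : ℤ) ^ (4 * n) - 1 := by
    rw [← ZMod.intCast_zmod_eq_zero_iff_dvd]
    push_cast
    rw [hG, ← Units.val_pow_eq_pow_val, ← hord, pow_orderOf_eq_one, Units.val_one, sub_self]
  have hR4 : (p : ℤ) ^ 2 ∣ R ^ 4 - 1 := by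
    have h1 := powp (p := p) hG4
    rw [one_pow] at h1
    have h2 : R ^ 4 - 1 = (((G : ℤ) ^ (4 * n)) ^ p - 1) *
        ((((G : ℤ) ^ (4 * n)) ^ p) ^ 2 + ((G : ℤ) ^ (4 * n)) ^ p + 1) := by
      have : R ^ 4 = (((G : ℤ) ^ (4 * n)) ^ p) ^ 3 := by
        rw [hR, ← pow_mul, ← pow_mul, ← pow_mul]
        congr 1
        ring
      rw [this]; ring
    rw [h2]
    exact Dvd.dvd.mul_right h1 _
  have hR1 : ¬ (p : ℤ) ∣ R ^ 2 - 1 := by
    intro h1
    rw [← ZMod.intCast_zmod_eq_zero_iff_dvd, hR] at h1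
    push_cast at h1
    rw [hG, ← pow_mul, ← Units.val_pow_eq_pow_val, sub_eq_zero, Units.val_eq_one] at h1
    have h2 := orderOf_dvd_of_pow_eq_one h1
    rw [hord] at h2
    obtain ⟨c, hc⟩ := h2
    have h3 : (2 * n) * (3 * p) = (2 * n) * (2 * c) := by
      have e1 : (2 * n) * (3 * p) = 3 * n * p * 2 := by ring
      have e2 : (2 * n) * (2 * c) = 4 * n * c := by ring
      rw [e1, e2, hc]
    have h4 := Nat.eq_of_mul_eq_mul_left (by omega) h3
    omega
  have hRq : (p : ℤ) ^ 2 ∣ R ^ 2 + 1 := by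
    have h1 : (p : ℤ) ^ 2 ∣ (R ^ 2 - 1) * (R ^ 2 + 1) := by
      have : (R ^ 2 - 1) * (R ^ 2 + 1) = R ^ 4 - 1 := by ring
      rw [this]; exact hR4
    have h2 : IsCoprime ((p : ℤ) ^ 2) (R ^ 2 - 1) := (hpz.coprime_iff_not_dvd.2 hR1).pow_left
    exact h2.dvd_of_dvd_mul_left h1
  -- terms
  have ht4 : ((R : ZMod (p ^ 2))) ^ 4 = 1 := by
    have h1 : ((R ^ 4 - 1 : ℤ) : ZMod (p ^ 2)) = 0 := by
      rw [ZMod.intCast_zmod_eq_zero_iff_dvd]
      push_cast
      exact hR4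
    push_cast at h1
    exact sub_eq_zero.1 h1
  have hterm : ∀ (x : ZMod p) (m : ℕ), x * (1 - x) = (g : ZMod p) ^ m →
      ((((x.val : ℤ) * (1 - (x.val : ℤ))) ^ (3 * n * p) : ℤ) : ZMod (p ^ 2)) =
        (R : ZMod (p ^ 2)) ^ (m % 4) := by
    intro x m hx
    have : NeZero p := ⟨hp.out.ne_zero⟩
    have h1 : (p : ℤ) ∣ (x.val : ℤ) * (1 - (x.val : ℤ)) - (G : ℤ) ^ m := by
      rw [← ZMod.intCast_zmod_eq_zero_iff_dvd]
      push_cast
      rw [hG, ZMod.natCast_zmod_val, hx, sub_self]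
    have h2 : ((((x.val : ℤ) * (1 - (x.val : ℤ))) ^ p - ((G : ℤ) ^ m) ^ p : ℤ) :
        ZMod (p ^ 2)) = 0 := by
      rw [ZMod.intCast_zmod_eq_zero_iff_dvd]
      exact_mod_cast powp (p := p) h1
    rw [Int.cast_sub, sub_eq_zero] at h2
    have h3 : (R : ZMod (p ^ 2)) ^ (m % 4) = (R : ZMod (p ^ 2)) ^ m := by
      conv_rhs => rw [← Nat.div_add_mod m 4]
      rw [pow_add, pow_mul, ht4, one_pow, one_mul]
    rw [h3, hR]
    have e1 : 3 * n * p = p * (3 * n) := by ring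
    rw [e1, pow_mul, Int.cast_pow _ (3 * n), h2]
    push_cast
    rw [← pow_mul, ← pow_mul, ← pow_mul]
    congr 1
    ring
  have hcls : ∀ (x : ZMod p) (i : ℕ), i < 4 → χ (x * (1 - x)) = Complex.I ^ i →
      ((((x.val : ℤ) * (1 - (x.val : ℤ))) ^ (3 * n * p) : ℤ) : ZMod (p ^ 2)) =
        (R : ZMod (p ^ 2)) ^ i := by
    intro x i hi hx
    have hne : x * (1 - x) ≠ 0 := by
      intro h0
      rw [h0, hχ0] at hx
      exact pow_ne_zero i hI0 hx.symm
    obtain ⟨m, hm⟩ := hlog _ hne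
    rw [hterm x m hm]
    congr 1
    rw [hm, map_pow, hχg, hwn] at hx
    exact hIprim.pow_inj (Nat.mod_lt _ (by norm_num)) hi hx
  have h3np : 3 * n * p ≠ 0 := by
    have := hp.out.pos
    positivity
  have hsum := sum_classes4 (R := ZMod (p ^ 2)) χ hχ
    (fun x => ((((x.val : ℤ) * (1 - (x.val : ℤ))) ^ (3 * n * p) : ℤ) : ZMod (p ^ 2)))
    (R : ZMod (p ^ 2)) (by
      rw [ZMod.val_zero]
      simp [h3np]) (by
      have : Fact (1 < p) := ⟨hp.out.one_lt⟩
      rw [ZMod.val_one]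
      simp [h3np]) hcls
  have hn4 : ∀ {M : Type} [AddCommMonoid M] (F : ℕ → M),
      ∑ k ∈ range 4, F k = F 0 + F 1 + F 2 + F 3 := by
    intro M _ F
    rw [Finset.sum_range_succ, Finset.sum_range_succ, Finset.sum_range_succ, Finset.sum_range_one]
  rw [hn4] at hsum
  -- the Jacobi sums
  have hJ1 : jacobiSum χ χ = (N χ (Complex.I ^ 0) : ℂ) + N χ (Complex.I ^ 1) * Complex.I +
      N χ (Complex.I ^ 2) * Complex.I ^ 2 + N χ (Complex.I ^ 3) * Complex.I ^ 3 := by
    have := sum_classes4 (R := ℂ) χ hχ (fun x => χ x * χ (1 - x)) Complex.I (by simp [hχ0])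
      (by simp [hχ0]) (by
        intro x k _ hx
        rw [← map_mul]
        exact hx)
    rw [hn4, pow_zero, pow_one, mul_one] at this
    unfold jacobiSum
    rw [pow_zero, pow_one]
    exact this
  have hJ2 : jacobiSum χ⁻¹ χ⁻¹ = (N χ (Complex.I ^ 0) : ℂ) + N χ (Complex.I ^ 1) * (-Complex.I) +
      N χ (Complex.I ^ 2) * (-Complex.I) ^ 2 + N χ (Complex.I ^ 3) * (-Complex.I) ^ 3 := by
    have := sum_classes4 (R := ℂ) χ hχ (fun x => χ⁻¹ x * χ⁻¹ (1 - x)) (-Complex.I)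
      (by simp [MulChar.map_zero]) (by simp [MulChar.map_zero]) (by
        intro x k _ hx
        rw [← map_mul, MulChar.inv_apply_eq_inv', hx, ← inv_pow, Complex.inv_I])
    rw [hn4] at this
    unfold jacobiSum
    simp only [pow_zero, pow_one, mul_one] at this ⊢
    exact this
  have hprod := jacobiSum_mul_jacobiSum_inv (F := ZMod p) (F' := ℂ) (by
    rw [ZMod.ringChar_zmod_n, ringChar.eq ℂ 0]
    exact hp.out.ne_zero.symm) hχ1 hχ1 hχ2
  rw [hJ1, hJ2, ZMod.card] at hprod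
  -- counting
  have hcount : N χ (Complex.I ^ 0) + N χ (Complex.I ^ 1) + N χ (Complex.I ^ 2) +
      N χ (Complex.I ^ 3) + 2 = p := by
    have h2 := sum_classes4 (R := ℤ) χ hχ
      (fun x => if x = 0 then 0 else if x = 1 then 0 else 1) 1 (by simp) (by simp) (by
        intro x k _ hx
        have hx0 : x ≠ 0 := by
          rintro rfl
          rw [zero_mul, hχ0] at hx
          exact pow_ne_zero k hI0 hx.symm
        have hx1 : x ≠ 1 := by
          rintro rfl
          rw [sub_self, mul_zero, hχ0] at hx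
          exact pow_ne_zero k hI0 hx.symm
        simp [hx0, hx1])
    have h3 : ∑ x : ZMod p, (if x = 0 then (0 : ℤ) else if x = 1 then 0 else 1) = p - 2 := by
      have e : ∀ x : ZMod p, (if x = 0 then (0 : ℤ) else if x = 1 then 0 else 1) =
          1 - (if x = 0 then 1 else 0) - (if x = 1 then 1 else 0) := by
        intro x
        by_cases h0 : x = 0
        · subst h0; simp
        · by_cases h1 : x = 1
          · subst h1; simp
          · simp [h0, h1]
      rw [Finset.sum_congr rfl fun x _ => e x, sum_sub_distrib, sum_sub_distrib]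
      simp only [sum_const, card_univ, ZMod.card, nsmul_eq_mul, mul_one, sum_ite_eq', mem_univ,
        if_true]
      ring
    rw [h3, hn4] at h2
    simp only [one_pow, mul_one] at h2
    have h4 : ((N χ (Complex.I ^ 0) + N χ (Complex.I ^ 1) + N χ (Complex.I ^ 2) +
        N χ (Complex.I ^ 3) + 2 : ℕ) : ℤ) = (p : ℤ) := by
      push_cast
      linear_combination -h2
    exact_mod_cast h4
  -- the value at 1/4
  have hquart : χ ((1 : ZMod p) / 2 * (1 / 2)) = (-1) ^ n := by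
    have h2 : (2 : ZMod p) ≠ 0 := by
      intro h0
      have : ((2 : ℕ) : ZMod p) = 0 := by exact_mod_cast h0
      rw [ZMod.natCast_eq_zero_iff] at this
      exact hp2 ((Nat.prime_dvd_prime_iff_eq hp.out Nat.prime_two).1 this)
    have hgn : ((g : ZMod p) ^ n) ^ 2 = -1 := by
      have h1 : (((g : ZMod p) ^ n) ^ 2 - 1) * (((g : ZMod p) ^ n) ^ 2 + 1) = 0 := by
        have : ((g : ZMod p) ^ n) ^ 4 = 1 := by
          rw [← pow_mul, mul_comm n 4, ← Units.val_pow_eq_pow_val, ← hord, pow_orderOf_eq_one,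
            Units.val_one]
        linear_combination this
      rcases mul_eq_zero.1 h1 with h3 | h3
      · exfalso
        rw [sub_eq_zero, ← pow_mul, ← Units.val_pow_eq_pow_val, Units.val_eq_one] at h3
        have h4 := orderOf_dvd_of_pow_eq_one h3
        rw [hord] at h4
        have := Nat.le_of_dvd (by omega) h4
        omega
      · linear_combination h3
    have e : (4 : ZMod p) = (g : ZMod p) ^ (2 * n) * (1 + (g : ZMod p) ^ n) ^ 4 := by
      have e1 : (g : ZMod p) ^ (2 * n) = -1 := by rw [mul_comm, pow_mul, hgn]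
      rw [e1]
      have e2 : (1 + (g : ZMod p) ^ n) ^ 2 = 2 * (g : ZMod p) ^ n := by
        linear_combination hgn
      have e3 : (1 + (g : ZMod p) ^ n) ^ 4 = 4 * ((g : ZMod p) ^ n) ^ 2 := by
        calc (1 + (g : ZMod p) ^ n) ^ 4 = ((1 + (g : ZMod p) ^ n) ^ 2) ^ 2 := by ring
          _ = _ := by rw [e2]; ring
      rw [e3, hgn]
      ring
    have h4ne : (4 : ZMod p) ≠ 0 := by
      have : (4 : ZMod p) = 2 * 2 := by norm_num
      rw [this]
      exact mul_ne_zero h2 h2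
    have hne : (1 + (g : ZMod p) ^ n) ≠ 0 := by
      intro h0
      rw [h0] at e
      simp at e
      exact h4ne e
    have hχ4 : χ (4 : ZMod p) = (-1) ^ n := by
      rw [e, map_mul, map_pow, map_pow, hχg]
      obtain ⟨k, _, hk⟩ := hχ _ hne
      have hk4 : (Complex.I ^ k) ^ 4 = 1 := by rw [← pow_mul, mul_comm, pow_mul, hI4, one_pow]
      rw [hk, hk4, mul_one, pow_mul, Complex.I_sq]
    have e5 : ((1 : ZMod p) / 2 * (1 / 2)) * 4 = 1 := by
      field_simp
      norm_num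
    have e6 := congrArg χ e5
    rw [map_mul, map_one, hχ4] at e6
    have e7 : ((-1 : ℂ) ^ n) * (-1) ^ n = 1 := by
      rw [← mul_pow]
      norm_num
    calc χ ((1 : ZMod p) / 2 * (1 / 2)) =
        χ ((1 : ZMod p) / 2 * (1 / 2)) * (((-1 : ℂ) ^ n) * (-1) ^ n) := by rw [e7, mul_one]
      _ = (χ ((1 : ZMod p) / 2 * (1 / 2)) * (-1) ^ n) * (-1) ^ n := by ring
      _ = (-1) ^ n := by rw [e6, one_mul]
  have hre : (((-1 : ℂ)) ^ n).im = 0 := by
    rcases neg_one_pow_eq_or ℂ n with h1 | h1 <;> rw [h1] <;> simp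
  have hN1 : 2 ∣ N χ (Complex.I ^ 1) := by
    apply two_dvd _ _ _ hp2
    rw [hquart, pow_one]
    intro h1
    rw [h1] at hre
    simp at hre
  have hN3 : 2 ∣ N χ (Complex.I ^ 3) := by
    apply two_dvd _ _ _ hp2
    rw [hquart]
    intro h1
    rw [h1, Complex.I_pow_three] at hre
    simp at hre
  have hN2 : N χ (Complex.I ^ 2) % 2 = n % 2 := by
    rcases Nat.even_or_odd n with hev | hod
    · have h1 : 2 ∣ N χ (Complex.I ^ 2) := by
        apply two_dvd _ _ _ hp2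
        rw [hquart, hev.neg_one_pow, Complex.I_sq]
        norm_num
      have h2 := Nat.even_iff.1 hev
      omega
    · have h1 : N χ (Complex.I ^ 2) % 2 = 1 := by
        apply odd_class _ _ _ hp2
        rw [hquart, hod.neg_one_pow, Complex.I_sq]
      have h2 := Nat.odd_iff.1 hod
      omega
  -- the integer Jacobi sum
  obtain ⟨Jz, hJz⟩ : ∃ Jz : ℤ, Jz = ∑ x ∈ range p, ((x : ℤ) * (1 - (x : ℤ))) ^ (3 * n * p) :=
    ⟨_, rfl⟩
  have hJS : JQ p n = (Jz : ℚ) := by
    rw [hJz]; unfold JQ; push_cast; rfl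
  have h1 : (p : ℤ) ^ 2 ∣ Jz - (N χ (Complex.I ^ 0) + N χ (Complex.I ^ 1) * R +
      N χ (Complex.I ^ 2) * R ^ 2 + N χ (Complex.I ^ 3) * R ^ 3) := by
    have h2 : ((Jz - (N χ (Complex.I ^ 0) + N χ (Complex.I ^ 1) * R +
      N χ (Complex.I ^ 2) * R ^ 2 + N χ (Complex.I ^ 3) * R ^ 3) : ℤ) : ZMod (p ^ 2)) = 0 := by
      rw [hJz, sum_range_zmod (p := p) (fun x => ((x : ℤ) * (1 - (x : ℤ))) ^ (3 * n * p))]
      rw [Int.cast_sub, Int.cast_sum, hsum]
      push_cast
      ring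
    rw [ZMod.intCast_zmod_eq_zero_iff_dvd] at h2
    exact_mod_cast h2
  generalize N χ (Complex.I ^ 0) = n0 at *
  generalize N χ (Complex.I ^ 1) = n1 at *
  generalize N χ (Complex.I ^ 2) = n2 at *
  generalize N χ (Complex.I ^ 3) = n3 at *
  have hnorm : ((n0 : ℤ) - n2) ^ 2 + ((n1 : ℤ) - n3) ^ 2 = p := by
    have hc : ((((n0 : ℤ) - n2) ^ 2 + ((n1 : ℤ) - n3) ^ 2 : ℤ) : ℂ) = ((p : ℤ) : ℂ) := by
      push_cast
      rw [← hprod]
      have hI2 : Complex.I ^ 2 = -1 := Complex.I_sq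
      have hI3 : Complex.I ^ 3 = -Complex.I := Complex.I_pow_three
      have e1 : (-Complex.I) ^ 2 = -1 := by rw [neg_sq, hI2]
      have e2 : (-Complex.I) ^ 3 = Complex.I := by
        rw [neg_pow, hI3]
        ring
      rw [e1, e2, hI2, hI3]
      linear_combination ((n1 : ℂ) - n3) ^ 2 * hI2
    exact_mod_cast hc
  obtain ⟨c, hc⟩ := hRq
  have hmod : ((n0 : ℤ) - n2) % 4 = 3 := by
    obtain ⟨u, hu⟩ := hN1
    obtain ⟨v, hv⟩ := hN3
    -- b = 2(u - v), a odd
    have hb : ((n1 : ℤ) - n3) = 2 * ((u : ℤ) - v) := by rw [hu, hv]; push_cast; ring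
    rw [hb] at hnorm
    have hp4 : (p : ℤ) = 4 * n + 1 := by exact_mod_cast h
    rw [hp4] at hnorm
    have hodd : ((n0 : ℤ) - n2) % 2 = 1 := by omega
    obtain ⟨m, hm⟩ : ∃ m : ℤ, (n0 : ℤ) - n2 = 2 * m + 1 := ⟨((n0 : ℤ) - n2) / 2, by omega⟩
    have h5 : m ^ 2 + m + ((u : ℤ) - v) ^ 2 = n := by
      rw [hm] at hnorm
      nlinarith
    have h6 : (m ^ 2 + m) % 2 = 0 := by
      have : m ^ 2 + m = m * (m + 1) := by ring
      rw [this]
      exact Int.even_iff.1 (Int.even_mul_succ_self m)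
    have h7 : (((u : ℤ) - v) ^ 2) % 2 = ((u : ℤ) - v) % 2 := by
      rcases Int.even_or_odd ((u : ℤ) - v) with h8 | h8
      · rw [Int.even_iff.1 h8, pow_two, Int.mul_emod, Int.even_iff.1 h8]
        norm_num
      · rw [Int.odd_iff.1 h8, pow_two, Int.mul_emod, Int.odd_iff.1 h8]
        norm_num
    omega
  refine ⟨(n0 : ℤ) - n2, (n1 : ℤ) - n3, hnorm.symm, hmod, ?_⟩
  intro hI
  have hnd : ¬ (p : ℤ) ∣ Jz := by
    rintro ⟨e, he⟩
    apply hI
    rw [hJS, he]
    exact ⟨e, int_mem e, by push_cast; ring⟩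
  obtain ⟨q, hq⟩ := h1
  obtain ⟨hL, hE⟩ := endgame (p : ℤ) hpz (2 * ((n0 : ℤ) - n2))
    (((n0 : ℤ) - n2) + ((n1 : ℤ) - n3) * R) (((n0 : ℤ) - n2) - ((n1 : ℤ) - n3) * R) Jz
    ⟨q + (n2 + n3 * R) * c, by linear_combination hq + ((n2 : ℤ) + n3 * R) * hc⟩
    ⟨0, by ring⟩
    ⟨-((n1 : ℤ) - n3) ^ 2 * c, by linear_combination hnorm - ((n1 : ℤ) - n3) ^ 2 * hc⟩ hnd
  obtain ⟨e, he⟩ := hE
  have hcast : (2 : ℚ) * (((n0 : ℤ) - n2 : ℤ) : ℚ) = ((2 * ((n0 : ℤ) - n2) : ℤ) : ℚ) := by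
    push_cast
    ring
  rw [hcast, hJS]
  generalize (2 * ((n0 : ℤ) - n2) : ℤ) = L at *
  have hU : U p (L : ℚ) := U_int hL
  have hL0 : (L : ℚ) ≠ 0 := hU.1
  refine ⟨int_mem _, sub_mem (int_mem _) ?_, ?_⟩
  · rw [div_eq_mul_inv]; exact mul_mem (nat_mem p) hU.2.2
  · refine ⟨(e : ℚ) * (L : ℚ)⁻¹, mul_mem (int_mem e) hU.2.2, ?_⟩
    have he' : (L : ℚ) * Jz - (L : ℚ) ^ 2 + p = (p : ℚ) ^ 2 * e := by exact_mod_cast he
    field_simp
    linear_combination he'

end Pool.Agent.R439.FD
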