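import Pool.Agent.R439.FD.Defs

set_option autoImplicit false

/-!
FD-UNIQ: uniqueness of the representation of a prime as a sum of two squares.
-/

namespace Pool.Agent.R439.FD

theorem uniq : StmtUniq := by
  intro p hp x y a b h h' hx ha
  have hp0 : (0 : ℤ) < p := by exact_mod_cast hp.pos
  have hprime : Prime (p : ℤ) := Nat.prime_iff_prime_int.mp hp
  have key : ∀ D E : ℤ, (p : ℤ) ^ 2 = E ^ 2 + D ^ 2 → (p : ℤ) ∣ D → D = 0 ∨ E = 0 := by
    intro D E hE hD
    obtain ⟨k, rfl⟩ := hD
    by_cases hk : k = 0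
    · left
      rw [hk, mul_zero]
    · right
      have hk1 : 1 ≤ k ^ 2 := by
        have := sq_pos_of_ne_zero (a := k) (by exact hk)
        omega
      have hp2 : 0 < (p : ℤ) ^ 2 := by positivity
      have : E ^ 2 ≤ 0 := by nlinarith [mul_le_mul_of_nonneg_left hk1 hp2.le]
      exact pow_eq_zero_iff (two_ne_zero) |>.1 (le_antisymm this (sq_nonneg E))
  have hdvd : (p : ℤ) ∣ (x * b - y * a) * (x * b + y * a) := by
    refine ⟨b ^ 2 - y ^ 2, ?_⟩
    linear_combination (-b ^ 2) * h + y ^ 2 * h'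
  have fin : x ^ 2 * b ^ 2 = y ^ 2 * a ^ 2 → x = a ∨ x = -a := by
    intro e
    have h1 : (p : ℤ) * b ^ 2 = (p : ℤ) * y ^ 2 := by
      linear_combination b ^ 2 * h + e - y ^ 2 * h'
    have h2 : b ^ 2 = y ^ 2 := mul_left_cancel₀ (by positivity) h1
    have h3 : x ^ 2 = a ^ 2 := by linarith
    exact sq_eq_sq_iff_eq_or_eq_neg.mp h3
  have par : x ^ 2 = b ^ 2 → x = a ∨ x = -a := by
    intro e
    have h1 : y ^ 2 = a ^ 2 := by linarith
    have hx2 : x ^ 2 % 2 = 1 := by rw [pow_two, Int.mul_emod, hx]; norm_num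
    have ha2 : a ^ 2 % 2 = 1 := by rw [pow_two, Int.mul_emod, ha]; norm_num
    have hp2 : (p : ℤ) % 2 = 0 := by
      rw [h, h1]
      omega
    have hp3 : p = 2 := by
      have : 2 ∣ p := by omega
      exact ((Nat.prime_dvd_prime_iff_eq Nat.prime_two hp).1 this).symm
    have h5 : 0 ≤ x ^ 2 := sq_nonneg x
    have h6 : 0 ≤ a ^ 2 := sq_nonneg a
    have h7 : x ^ 2 + a ^ 2 = 2 := by
      rw [← h1, ← h, hp3]
      norm_num
    have h8 : x ^ 2 = a ^ 2 := by omega
    exact sq_eq_sq_iff_eq_or_eq_neg.mp h8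
  have fin2 : x ^ 2 * a ^ 2 = y ^ 2 * b ^ 2 → x = a ∨ x = -a := by
    intro e
    apply par
    have h1 : (p : ℤ) * x ^ 2 = (p : ℤ) * b ^ 2 := by
      linear_combination x ^ 2 * h' - b ^ 2 * h + e
    exact mul_left_cancel₀ (by positivity) h1
  rcases hprime.dvd_or_dvd hdvd with h1 | h1
  · rcases key (x * b - y * a) (x * a + y * b)
      (by linear_combination (p : ℤ) * h + (x ^ 2 + y ^ 2) * h') h1 with h2 | h2
    · apply fin
      have e : x * b = y * a := by linarith
      calc x ^ 2 * b ^ 2 = (x * b) ^ 2 := by ring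
        _ = (y * a) ^ 2 := by rw [e]
        _ = _ := by ring
    · apply fin2
      have e : x * a = -(y * b) := by linarith
      calc x ^ 2 * a ^ 2 = (x * a) ^ 2 := by ring
        _ = (-(y * b)) ^ 2 := by rw [e]
        _ = _ := by ring
  · rcases key (x * b + y * a) (x * a - y * b)
      (by linear_combination (p : ℤ) * h + (x ^ 2 + y ^ 2) * h') h1 with h2 | h2
    · apply fin
      have e : x * b = -(y * a) := by linarith
      calc x ^ 2 * b ^ 2 = (x * b) ^ 2 := by ring
        _ = (-(y * a)) ^ 2 := by rw [e]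
        _ = _ := by ring
    · apply fin2
      have e : x * a = y * b := by linarith
      calc x ^ 2 * a ^ 2 = (x * a) ^ 2 := by ring
        _ = (y * b) ^ 2 := by rw [e]
        _ = _ := by ring

end Pool.Agent.R439.FD
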