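import Mathlib
import Pool.Agent.R439.FD.FB
import Pool.Agent.R439.FD.Alt
import Pool.Agent.R439.FD.JSum
import Pool.Agent.R439.FD.Jac
import Pool.Agent.R439.FD.Uniq

set_option autoImplicit false

/-!
Assembly for MP_fdcced_nt, Q1.
-/

namespace Pool.Agent.R439.PL.FD

open Finset Pool.Agent.R439.W3 Pool.Agent.R439.S4 Pool.Agent.R439.PL Pool.Agent.R439.PL.S4 Pool.Agent.R439.FD
open Pool.Agent.R488.Cub (gb H prod1 H_sub H_mem prodH prod_choose)

variable {p n : ℕ} [hp : Fact p.Prime]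

theorem C2_unit (hpn : p = 4 * n + 1) : U p (((2 * n).choose n : ℕ) : ℚ) := by
  refine U_nat' fun h => ?_
  have h1 : (2 * n).choose n * n.factorial * (2 * n - n).factorial = (2 * n).factorial :=
    Nat.choose_mul_factorial_mul_factorial (by omega)
  have h2 : p ∣ (2 * n).factorial := by
    rw [← h1, mul_assoc]; exact Dvd.dvd.mul_right h _
  have := (hp.out.dvd_factorial).1 h2
  omega

/-- the value of `TT (2n)` -/
theorem TT_val (hpn : p = 4 * n + 1) : EQ p 2 (TT (2 * n)) ((-1) ^ n * ((2 * n).choose n : ℚ) *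
    (1 + p * (2 : ℚ)⁻¹ * (H n - H (2 * n)))) := by
  have hn := hn0 hpn
  have u2 := unit2 hpn
  have h1 := TT_conv hpn
  have h2 := ch_two hpn
  have m1 := H_mem (p := p) (m := n) (by omega)
  have m2 := H_mem (p := p) (m := 2 * n) (by omega)
  have ha := p_half_I (p := p) u2 m1
  have hb := p_half_I (p := p) u2 m2
  have uc := ch_U (p := p) (m := 2 * n) (by omega) (by omega : n ≤ 2 * n)
  have uc2 := ch_U (p := p) (m := 2 * n) (by omega) (le_refl (2 * n))
  have mT : TT (2 * n) ∈ Zp p := sum_mem fun k hk => mul_mem (pow_mem (neg_mem (one_mem _)) k)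
    (pow_mem (ch_U (p := p) (m := 2 * n) (by omega) (by have := mem_range.1 hk; omega)).2.1 2)
  have ms : (-1 : ℚ) ^ n ∈ Zp p := pow_mem (neg_mem (one_mem _)) n
  have hs : (-1 : ℚ) ^ n * (-1) ^ n = 1 := by rw [← mul_pow]; norm_num
  have mC : ((2 * n).choose n : ℚ) ∈ Zp p := nat_mem _
  generalize TT (2 * n) = T at *
  generalize (-1 : ℚ) ^ n = s at *
  generalize ((2 * n).choose n : ℚ) = C at *
  have e0 : p * (2 : ℚ)⁻¹ * (H n - H (2 * n)) = p * (2 : ℚ)⁻¹ * H n - p * (2 : ℚ)⁻¹ * H (2 * n) := by ring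
  rw [e0]
  generalize p * (2 : ℚ)⁻¹ * H n = a at *
  generalize p * (2 : ℚ)⁻¹ * H (2 * n) = b at *
  have h3 := (EQ.refl (k := 2) mC).mul h1
  have h4 := h2.mul (EQ.refl (k := 2) (mul_mem mT (add_mem (one_mem (Zp p)) hb.mem)))
  have e1 : C * ch (2 * n) * (T * (1 + b)) = C * (ch (2 * n) * (T * (1 + b))) := by ring
  rw [e1] at h4
  have h5 := h3.trans h4
  have h6 : I p 2 (ch n * (C - s * (1 - a) * (T * (1 + b)))) := by
    have := h5.2.2
    convert this using 1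
    ring
  have h7 := uc.cancel h6
  have ma := ha.mem
  have mb := hb.mem
  refine ⟨mT, mul_mem (mul_mem ms mC) (add_mem (one_mem _) (sub_mem ma mb)), ?_⟩
  have h8 := h7.mulL (neg_mem (mul_mem ms (add_mem (one_mem _) (sub_mem ma mb))))
  have h9 : I p 2 ((a - b) * (a - b) + a * b * (1 + (a - b))) :=
    ((ha.sub hb).mul (ha.sub hb)).add ((ha.mul hb).mulR (add_mem (one_mem _) (sub_mem ma mb)))
  have h10 := h8.add (h9.mulL mT)
  convert h10 using 1
  linear_combination T * (1 - a) * (1 + b) * (1 + (a - b)) * (-hs)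

theorem H_refl (hpn : p = 4 * n + 1) : I p 1 (H (3 * n) - H n) := by
  have hn := hn0 hpn
  have u2 := unit2 hpn
  have h0 := H_sub (3 * n) (2 * n) (by omega)
  rw [show 3 * n - 2 * n = n by omega] at h0
  have u : ∀ i, i < 2 * n → U p (((3 * n : ℕ) : ℚ) - i) := by
    intro i hi
    have := U_nat (p := p) (k := 3 * n - i) (by omega) (by omega)
    rwa [Nat.cast_sub (by omega)] at this
  have r1 := sum_range_reflect (fun i : ℕ => (((3 * n : ℕ) : ℚ) - i)⁻¹) (2 * n)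
  have r2 : EQ p 1 (∑ i ∈ range (2 * n), (((3 * n : ℕ) : ℚ) - (2 * n - 1 - i : ℕ))⁻¹)
      (∑ i ∈ range (2 * n), -(((3 * n : ℕ) : ℚ) - i)⁻¹) := by
    refine EQ.sum fun i hi => ?_
    have hi' := mem_range.1 hi
    have u1 := u i hi'
    have u3 := u (2 * n - 1 - i) (by omega)
    refine ⟨u3.2.2, neg_mem u1.2.2, (((3 * n : ℕ) : ℚ) - (2 * n - 1 - i : ℕ))⁻¹ *
      (((3 * n : ℕ) : ℚ) - i)⁻¹, mul_mem u3.2.2 u1.2.2, ?_⟩
    have a1 := u1.1
    have a3 := u3.1
    have e : ((2 * n - 1 - i : ℕ) : ℚ) = 2 * n - 1 - i := by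
      rw [Nat.cast_sub (by omega), Nat.cast_sub (by omega)]; push_cast; ring
    rw [e] at a3 ⊢
    have h2 : (p : ℚ) = 4 * n + 1 := by exact_mod_cast hpn
    rw [h2]
    push_cast at a1 a3 ⊢
    have e5 : 4 * (n : ℚ) + 1 = (3 * n - (2 * n - 1 - i)) + (3 * n - i) := by ring
    rw [e5]
    generalize 3 * (n : ℚ) - (2 * n - 1 - i) = X at *
    generalize 3 * (n : ℚ) - i = Y at *
    field_simp
    ring
  rw [r1, sum_neg_distrib, h0] at r2
  have r3 := r2.2.2
  have e : H (3 * n) - H n - -(H (3 * n) - H n) = 2 * (H (3 * n) - H n) := by ring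
  rw [e] at r3
  exact u2.cancel r3

theorem C3_val (hpn : p = 4 * n + 1) : EQ p 2 ((3 * n).choose n : ℚ)
    ((-1) ^ n * ((2 * n).choose n : ℚ) * (1 + p * (H n - H (2 * n)))) := by
  have hn := hn0 hpn
  have h1 := prodH (p := p) (a := 2 * n) (b := n) (by omega) (by omega) (I_p)
  rw [prod_choose _ _ (by omega), show 2 * n - n = n by omega] at h1
  have h2 : ((3 * n).choose n : ℚ) * n.factorial = (-1) ^ n * ∏ i ∈ range n, (((2 * n : ℕ) : ℚ) - i - p) := by
    rw [← prod_choose (3 * n) n (by omega), ← prod_range_reflect (fun i : ℕ => ((3 * n : ℕ) : ℚ) - i),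
      ← card_range n, ← prod_const, card_range, ← prod_mul_distrib]
    refine prod_congr rfl fun i hi => ?_
    have hi' := mem_range.1 hi
    have e : ((n - 1 - i : ℕ) : ℚ) = n - 1 - i := by
      rw [Nat.cast_sub (by omega), Nat.cast_sub (by omega)]; push_cast; ring
    have h2 : (p : ℚ) = 4 * n + 1 := by exact_mod_cast hpn
    rw [e, h2]
    push_cast
    ring
  have uk := U_fac (p := p) (k := n) (by omega)
  have ms : (-1 : ℚ) ^ n ∈ Zp p := pow_mem (neg_mem (one_mem _)) n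
  have h3 := ((EQ.refl (k := 2) ms).mul h1).mul (EQ.refl (k := 2) uk.2.2)
  rw [← h2] at h3
  have a1 := uk.1
  have e1 : ((3 * n).choose n : ℚ) * n.factorial * (n.factorial : ℚ)⁻¹ = ((3 * n).choose n : ℚ) := by
    field_simp
  have e2 : (-1 : ℚ) ^ n * (((2 * n).choose n : ℚ) * n.factorial * (1 - p * (H (2 * n) - H n))) *
      (n.factorial : ℚ)⁻¹ = (-1) ^ n * ((2 * n).choose n : ℚ) * (1 + p * (H n - H (2 * n))) := by
    field_simp
    ring
  rwa [e1, e2] at h3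

theorem H_succ (m : ℕ) : H (m + 1) = H m + 1 / ((m : ℚ) + 1) := by
  rw [H, H, sum_range_succ]

/-- the linear terms of the Jacobi sum, exactly -/
theorem ZQ_val (hn : 0 < n) : 3 * (n : ℚ) * (ZQ (3 * n - 1) n + (-1) ^ n * ZQ (3 * n - 1) (2 * n)) =
    -((-1) ^ n * ((3 * n).choose n : ℚ) * (1 + 2 * n * (H (3 * n) - H (2 * n)) + n * (H (3 * n) - H n))) := by
  obtain ⟨l, rfl⟩ : ∃ l, n = l + 1 := ⟨n - 1, by omega⟩
  have h1 := alt (3 * (l + 1) - 1) (l + 1) (by omega)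
  have h2 := alt (3 * (l + 1) - 1) (2 * (l + 1)) (by omega)
  have e1 : ZQ (3 * (l + 1) - 1) (l + 1) = (-1) ^ (l + 1 + 1) * ((3 * (l + 1) - 1).choose (l + 1) : ℚ) *
      (H (3 * (l + 1) - 1) - H (3 * (l + 1) - 1 - (l + 1))) := h1
  have e2 : ZQ (3 * (l + 1) - 1) (2 * (l + 1)) = (-1) ^ (2 * (l + 1) + 1) *
      ((3 * (l + 1) - 1).choose (2 * (l + 1)) : ℚ) *
      (H (3 * (l + 1) - 1) - H (3 * (l + 1) - 1 - (2 * (l + 1)))) := h2
  rw [e1, e2, show 3 * (l + 1) - 1 = 3 * l + 2 by omega, show 3 * l + 2 - (l + 1) = 2 * l + 1 by omega,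
    show 3 * l + 2 - 2 * (l + 1) = l by omega, show 3 * (l + 1) = 3 * l + 2 + 1 by ring, H_succ (3 * l + 2),
    show 2 * (l + 1) = 2 * l + 1 + 1 by ring, H_succ (2 * l + 1), H_succ l]
  have c1 := ch_up (3 * l + 2) (l + 1)
  have c2 := ch_up (3 * l + 2) (2 * l + 1 + 1)
  have c3 : (3 * l + 2 + 1).choose (2 * l + 1 + 1) = (3 * l + 2 + 1).choose (l + 1) := by
    rw [← Nat.choose_symm (by omega : l + 1 ≤ 3 * l + 2 + 1)]
    congr 1
    omega
  rw [c3] at c2
  have p1 : (-1 : ℚ) ^ (2 * l + 1 + 1 + 1) = -1 := by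
    rw [show 2 * l + 1 + 1 + 1 = 2 * (l + 1) + 1 by ring, pow_succ, pow_mul]; norm_num
  rw [p1]
  push_cast at c1 c2 ⊢
  have q1 : (l : ℚ) + 1 ≠ 0 := by positivity
  have q3 : 3 * (l : ℚ) + 2 + 1 = 3 * (l + 1) := by ring
  have q4 : 2 * (l : ℚ) + 1 + 1 = 2 * (l + 1) := by ring
  rw [q3] at c1 c2 ⊢
  rw [q4] at c2 ⊢
  generalize ((3 * l + 2 + 1).choose (l + 1) : ℚ) = C at *
  have d1 : ((3 * l + 2).choose (l + 1) : ℚ) = 2 / 3 * C := by
    apply mul_right_cancel₀ (mul_ne_zero three_ne_zero q1)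
    linear_combination c1
  have d2 : ((3 * l + 2).choose (2 * l + 1 + 1) : ℚ) = 1 / 3 * C := by
    apply mul_right_cancel₀ (mul_ne_zero three_ne_zero q1)
    linear_combination c2
  rw [d1, d2, pow_succ (-1 : ℚ) (l + 1)]
  generalize (-1 : ℚ) ^ (l + 1) = s
  generalize H (3 * l + 2) = h3
  generalize H (2 * l + 1) = h2
  generalize H l = h1
  field_simp
  ring

/-- the Jacobi sum -/
theorem JQ_val (hpn : p = 4 * n + 1) : EQ p 2 (JQ p n) (-(((2 * n).choose n : ℚ) *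
    (1 + p * (2 : ℚ)⁻¹ * (H n - H (2 * n))))) := by
  have hn := hn0 hpn
  have u2 := unit2 hpn
  have h1 := jsum p n hpn
  have h2 := ZQ_val hn
  have e1 : (-1 : ℚ) ^ n * (p - 1) * ((3 * n).choose n : ℚ) +
      3 * n * p * (ZQ (3 * n - 1) n + (-1) ^ n * ZQ (3 * n - 1) (2 * n)) =
      -((-1) ^ n * ((3 * n).choose n : ℚ) * (1 + p * (2 * n * (H (3 * n) - H (2 * n)) +
        n * (H (3 * n) - H n)))) := by
    linear_combination (p : ℚ) * h2
  rw [e1] at h1
  have h3 := H_refl hpn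
  have h4 := C3_val hpn
  have m1 := H_mem (p := p) (m := n) (by omega)
  have m2 := H_mem (p := p) (m := 2 * n) (by omega)
  have m3 := H_mem (p := p) (m := 3 * n) (by omega)
  have ms : (-1 : ℚ) ^ n ∈ Zp p := pow_mem (neg_mem (one_mem _)) n
  have hs : (-1 : ℚ) ^ n * (-1) ^ n = 1 := by rw [← mul_pow]; norm_num
  have mC : ((2 * n).choose n : ℚ) ∈ Zp p := nat_mem _
  have mC3 : ((3 * n).choose n : ℚ) ∈ Zp p := nat_mem _
  have mn : (n : ℚ) ∈ Zp p := nat_mem _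
  have hpq : (p : ℚ) = 4 * n + 1 := by exact_mod_cast hpn
  -- replace the bracket
  have mh : H n - H (2 * n) ∈ Zp p := sub_mem m1 m2
  have hI := p_half_I (p := p) u2 mh
  have h5 : EQ p 2 (1 + p * (2 * n * (H (3 * n) - H (2 * n)) + n * (H (3 * n) - H n)))
      (1 - p * (2 : ℚ)⁻¹ * (H n - H (2 * n))) := by
    refine ⟨add_mem (one_mem _) (mul_mem p_mem (add_mem (mul_mem (mul_mem u2.2.1 mn) (sub_mem m3 m2))
      (mul_mem mn (sub_mem m3 m1)))), sub_mem (one_mem _) hI.mem, ?_⟩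
    have n3 : (3 : ℚ) ∈ Zp p := by exact_mod_cast nat_mem (p := p) 3
    have h6 : I p 1 (3 * n * (H (3 * n) - H n) + p * (2 : ℚ)⁻¹ * (H n - H (2 * n))) :=
      (h3.mulL (mul_mem n3 mn)).add hI
    have h7 := (I_p (p := p)).mul h6
    convert h7 using 1
    rw [hpq]
    ring
  have h6 := ((EQ.refl (k := 2) ms).mul (h4.mul h5)).neg
  have e2 : -((-1 : ℚ) ^ n * (((3 * n).choose n : ℚ) * (1 + p * (2 * n * (H (3 * n) - H (2 * n)) +
        n * (H (3 * n) - H n))))) = -((-1) ^ n * ((3 * n).choose n : ℚ) * (1 + p * (2 * n * (H (3 * n) - H (2 * n)) +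
        n * (H (3 * n) - H n)))) := by ring
  rw [e2] at h6
  have h7 := h1.trans h6
  refine h7.trans ⟨h7.2.1, neg_mem (mul_mem mC (add_mem (one_mem _) hI.mem)), ?_⟩
  have h8 : I p 2 (p * (H n - H (2 * n)) * (p * (2 : ℚ)⁻¹ * (H n - H (2 * n))) * ((2 * n).choose n : ℚ)) :=
    (((I_p (p := p)).mulR mh).mul hI).mulR mC
  convert h8 using 1
  linear_combination (-((2 * n).choose n : ℚ)) * (1 + p * (H n - H (2 * n))) *
    (1 - p * (2 : ℚ)⁻¹ * (H n - H (2 * n))) * hs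

theorem JQ_unit (hpn : p = 4 * n + 1) : U p (JQ p n) := by
  have hn := hn0 hpn
  have u2 := unit2 hpn
  have h1 := JQ_val hpn
  refine h1.symm.unit two_pos ?_
  have m1 := H_mem (p := p) (m := n) (by omega)
  have m2 := H_mem (p := p) (m := 2 * n) (by omega)
  have hI := p_half_I (p := p) u2 (sub_mem m1 m2)
  have uC := C2_unit hpn
  have u1 : U p (1 + p * (2 : ℚ)⁻¹ * (H n - H (2 * n))) := by
    refine U_of_not_I (add_mem (one_mem _) hI.mem) fun h => ?_
    apply not_I_one (p := p)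
    have := h.sub hI
    rwa [add_sub_cancel_right] at this
  have un : U p (-1 : ℚ) := ⟨by norm_num, neg_mem (one_mem _), by
    rw [inv_neg, inv_one]; exact neg_mem (one_mem _)⟩
  have := un.mul (uC.mul u1)
  rwa [neg_one_mul] at this

/-- **Q1** -/
theorem SQ_val (hpn : p = 4 * n + 1) {x y : ℤ} (h : (p : ℤ) = x ^ 2 + y ^ 2) (hx : x % 4 = 1) :
    EQ p 2 (SQ p) ((-1) ^ n * (2 * x - p / (2 * x))) := by
  obtain ⟨a, b, h1, h2, h3⟩ := jac p n hpn
  have h4 := h3 ((JQ_unit hpn).not_I one_pos)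
  have h5 : x = -a := by
    rcases uniq p hp.out x y a b h h1 (by omega) (by omega) with h5 | h5
    · omega
    · exact h5
  have s1 := SQ_QQ hpn
  rw [QQ_DD] at s1
  have s2 := DD_TT (p := p) (m := 2 * n) (by omega)
  have s3 := TT_val hpn
  have s4 := JQ_val hpn
  have ms : (-1 : ℚ) ^ n ∈ Zp p := pow_mem (neg_mem (one_mem _)) n
  have s5 := ((EQ.refl (k := 2) ms).mul (s4.symm.trans h4)).neg
  have e1 : -((-1 : ℚ) ^ n * -(((2 * n).choose n : ℚ) * (1 + p * (2 : ℚ)⁻¹ * (H n - H (2 * n))))) =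
      (-1) ^ n * ((2 * n).choose n : ℚ) * (1 + p * (2 : ℚ)⁻¹ * (H n - H (2 * n))) := by ring
  rw [e1] at s5
  have e2 : -((-1 : ℚ) ^ n * (2 * (a : ℚ) - p / (2 * a))) = (-1) ^ n * (2 * x - p / (2 * x)) := by
    rw [h5]
    push_cast
    rw [mul_neg, div_neg]
    ring
  rw [e2] at s5
  exact ((s1.trans s2).trans s3).trans s5

end Pool.Agent.R439.PL.FD
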